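import Pool.Agent.H89.PM.Stmt

/-!
# MP_5da387_pr: cell level definitions

Cells are elements of `ℤ^d`, places are pairs (cell, colour), a family is a finitely supported
function on places (the number of its points at each place).
-/

set_option autoImplicit false

open Finset

noncomputable section

namespace Pool.Agent.H89.PM

variable {d q : ℕ}

/-- cells -/
abbrev Cell (d : ℕ) := Fin d → ℤ

/-- places: a cell and a colour -/
abbrev Pl (d q : ℕ) := Cell d × Fin q

/-- families, at the level of places -/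
abbrev Fam (d q : ℕ) := Pl d q →₀ ℕ

/-- square of the largest possible distance of points of two cells of side 1 -/
def dist2 (x y : Cell d) : ℕ := ∑ l, ((x l - y l).natAbs + 1) ^ 2

/-- sup distance of cells -/
def sd (x y : Cell d) : ℕ := univ.sup fun l => (x l - y l).natAbs

/-- colour vector -/
def col {R : Type*} [AddCommMonoid R] (W : Pl d q →₀ R) : Fin q → R :=
  fun i => W.sum fun p c => if p.2 = i then c else 0

/-- families of type in `V`, nonzero, of diameter at most `k` (in cell units) -/
def Allowed (V : Finset (Fin q → ℕ)) (k : ℕ) (W : Fam d q) : Prop :=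
  col W ∈ V ∧ W ≠ 0 ∧ ∀ p ∈ W.support, ∀ p' ∈ W.support, dist2 p.1 p'.1 ≤ k ^ 2

/-- `m` is a sum of allowed families -/
def Dec (V : Finset (Fin q → ℕ)) (k : ℕ) (m : Fam d q) : Prop :=
  ∃ L : Multiset (Fam d q), (∀ W ∈ L, Allowed V k W) ∧ L.sum = m

/-- the lattice generated by `V` -/
def latV (V : Finset (Fin q → ℕ)) : AddSubgroup (Fin q → ℤ) :=
  AddSubgroup.closure ((fun (v : Fin q → ℕ) (i : Fin q) => (v i : ℤ)) '' (V : Set (Fin q → ℕ)))

/-- the class group `ℤ^q / ℤV` -/
abbrev Gr (V : Finset (Fin q → ℕ)) := (Fin q → ℤ) ⧸ latV V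

/-- class of an integer colour vector -/
def clz (V : Finset (Fin q → ℕ)) : (Fin q → ℤ) →+ Gr V := QuotientAddGroup.mk' (latV V)

/-- class of a natural colour vector -/
def cl (V : Finset (Fin q → ℕ)) (u : Fin q → ℕ) : Gr V := clz V fun i => (u i : ℤ)

/-- the box of radius `r` around 0 -/
def box (d r : ℕ) : Finset (Cell d) := Fintype.piFinset fun _ => Icc (-(r : ℤ)) r

/-- the two sides of a box: `true` is the right side in dimension one, `false` otherwise -/
def side (x : Cell d) : Bool := decide (d = 1 ∧ ∃ l, 0 < x l)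

/-- `u` on the box of radius `r` is strongly absorbable: for all prescribed classes of the spill
on the two sides (in dimension `≠ 1`: one side) there are allowed families whose sum is `u` on the
box. -/
def Astar (V : Finset (Fin q → ℕ)) (k r : ℕ) : Set (Pl d q → ℕ) :=
  {u | ∀ g : Bool → Gr V, (d ≠ 1 → g true = 0) →
    g false + g true + cl V (fun i => ∑ x ∈ box d r, u (x, i)) = 0 →
    ∃ L : Multiset (Fam d q), (∀ W ∈ L, Allowed V k W) ∧
      (∀ p : Pl d q, p.1 ∈ box d r → L.sum p = u p) ∧
      ∀ b, cl V (col (L.sum.filter fun p => p.1 ∉ box d r ∧ side p.1 = b)) = g b}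

/-- places of a box -/
abbrev BPl (d q r : ℕ) := {p : Pl d q // p.1 ∈ box d r}

instance (d q r : ℕ) : Fintype (BPl d q r) :=
  Fintype.subtype (box d r ×ˢ (Finset.univ : Finset (Fin q))) (by simp)

/-- extension by zero -/
def ext0 {r : ℕ} (u : BPl d q r → ℕ) : Pl d q → ℕ :=
  fun p => if h : p.1 ∈ box d r then u ⟨p, h⟩ else 0

/-- the strongly absorbable contents of the box as a subset of a finite product -/
def AstarI (V : Finset (Fin q → ℕ)) (k r : ℕ) : Set (BPl d q r → ℕ) :=
  {u | ext0 u ∈ (Astar V k r : Set (Pl d q → ℕ))}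

/-! ### Rates -/

/-- `mu` times the Cramér rate function of the Poisson law at `u / mu` -/
def cost {ι : Type*} [Fintype ι] (lam : ι → ℝ) (mu : ℝ) (u : ι → ℕ) : ℝ :=
  ∑ i, ((u i : ℝ) * Real.log (u i / (lam i * mu)) - u i + lam i * mu)

/-- every configuration outside `S` costs at least `(c - ε) mu` -/
def RateGe {ι : Type*} [Fintype ι] (lam : ι → ℝ) (S : Set (ι → ℕ)) (c : ℝ) : Prop :=
  ∀ ε > 0, ∃ mu0 : ℝ, ∀ mu ≥ mu0, ∀ u ∉ S, (c - ε) * mu ≤ cost lam mu u

/-- intensities of the places of a box -/
def lamB (lam : Fin q → ℝ) (r : ℕ) : BPl d q r → ℝ := fun p => lam p.1.2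

end Pool.Agent.H89.PM
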