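import Pool.Agent.H89.PM.Defs

/-!
# MP_5da387_pr: the multi-scale construction (deterministic definitions)
-/

set_option autoImplicit false

open Finset

noncomputable section

namespace Pool.Agent.H89.PM

variable {d q : ℕ}

/-- the first unit vector -/
def e1 : Cell d := fun l => if (l : ℕ) = 0 then 1 else 0

/-! ### Absorption in boxes -/

/-- The conclusion of the box lemma for the box of radius `r0 + (J+1) k`: if the content `n` is
at most `C4 mu` on the box of radius `r0`, typical outside, and robustly strongly absorbable on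
the boxes of radius `r0 + j k`, `1 ≤ j ≤ J`, then every modification of `n` at the boundary of the
large box, of class zero, is a sum of allowed families. -/
def BoxAbs (V : Finset (Fin q → ℕ)) (lam : Fin q → ℝ) (kap : ℝ) (k J : ℕ) (C4 eps1 : ℝ)
    (r0 : ℕ) (mu : ℝ) : Prop :=
  ∀ n : Pl d q → ℕ,
    (∀ p : Pl d q, p.1 ∈ box d r0 → (n p : ℝ) ≤ C4 * mu) →
    (∀ p : Pl d q, p.1 ∈ box d (r0 + (J + 1) * k) → p.1 ∉ box d r0 →
      |(n p : ℝ) - lam p.2 * mu| ≤ kap / 2 * mu) →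
    (∀ j, 1 ≤ j → j ≤ J → ∀ u : Pl d q → ℕ,
      (∀ p : Pl d q, p.1 ∈ box d (r0 + j * k) → |(u p : ℝ) - n p| ≤ eps1 * mu) →
      u ∈ (Astar V k (r0 + j * k) : Set (Pl d q → ℕ))) →
    ∀ m : Fam d q, (∀ p ∈ m.support, p.1 ∈ box d (r0 + (J + 1) * k)) →
      (∀ p : Pl d q, p.1 ∈ box d (r0 + (J + 1) * k - 1) → m p = n p) →
      (∀ p : Pl d q, p.1 ∈ box d (r0 + (J + 1) * k) → |(m p : ℝ) - n p| ≤ kap / 4 * mu) →
      cl V (col m) = 0 → Dec V k m

/-- Absorption in one cell. -/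
def CellAbs (d : ℕ) (V : Finset (Fin q → ℕ)) (lam : Fin q → ℝ) (kap : ℝ) (k : ℕ) (mu : ℝ) :
    Prop :=
  ∀ (c : Cell d) (m : Fam d q), (∀ p ∈ m.support, p.1 = c) →
    (∀ i, |(m (c, i) : ℝ) - lam i * mu| ≤ kap * mu) → cl V (col m) = 0 → Dec V k m

/-! ### Stage grids -/

/-- the cell of the grid of mesh `g` with origin `z` containing `x` -/
def idx (g : ℕ) (z x : Cell d) : Cell d := fun l => (x l - z l) / (g : ℤ)

/-- the grid cell with index `v` -/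
def cellset (g : ℕ) (z v : Cell d) : Finset (Cell d) :=
  Fintype.piFinset fun l => Ico (z l + g * v l) (z l + g * (v l + 1))

/-- points of the grid cell with index `v` within distance `b` of its boundary -/
def shellset (g b : ℕ) (z v : Cell d) : Finset (Cell d) :=
  (cellset g z v).filter fun x => ∃ l, x l < z l + g * v l + b ∨ z l + g * (v l + 1) ≤ x l + b

/-- contents of the grid cells -/
def cnt (n : Pl d q → ℕ) (g : ℕ) (z : Cell d) : Pl d q → ℕ :=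
  fun p => ∑ x ∈ cellset g z p.1, n (x, p.2)

/-- contents of the grid cells, restricted to a finite set `α` of base cells -/
def cntOn (n : Pl d q → ℕ) (g : ℕ) (z : Cell d) (α : Finset (Cell d)) : Pl d q → ℕ :=
  fun p => ∑ x ∈ α.filter (fun x => idx g z x = p.1), n (x, p.2)

/-- The property of an atom `α` (with the grid of mesh `g` and origin `z`): every small
modification of its content at its boundary grid cells, of class zero, is a sum of `k`-allowed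
families of grid places; and boundary grid cells have enough points of each colour. -/
def AtomOK (V : Finset (Fin q → ℕ)) (E1 k g : ℕ) (n : Pl d q → ℕ) (z : Cell d)
    (α : Finset (Cell d)) : Prop :=
  (∀ m : Fam d q, (∀ p ∈ m.support, ∃ x ∈ α, idx g z x = p.1) →
    (∀ p : Pl d q, (∀ x ∈ α, idx g z x = p.1 → x + e1 ∈ α ∧ x - e1 ∈ α) →
      m p = cntOn n g z α p) →
    (∀ p : Pl d q, m p ≤ cntOn n g z α p + E1 * g ^ d ∧ cntOn n g z α p ≤ m p + E1 * g ^ d) →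
    cl V (col m) = 0 → Dec V k m) ∧
  (∀ x ∈ α, x + e1 ∉ α → ∀ i, E1 * g ^ d ≤ cntOn n g z α (idx g z x, i))

/-! ### Covers by disjoint boxes -/

/-- `B` is a set of disjoint boxes (centre, radius) covering `A` with margin `R`, of radii at most
`|A| R`, each meeting `A`. -/
def CoverOK (A : Finset (Cell d)) (R : ℕ) (B : Finset (Cell d × ℕ)) : Prop :=
  (∀ b ∈ B, R ≤ b.2 ∧ b.2 ≤ A.card * R ∧ ∃ a ∈ A, sd a b.1 + R ≤ b.2) ∧
  (∀ a ∈ A, ∃ b ∈ B, sd a b.1 + R ≤ b.2) ∧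
  (∀ b ∈ B, ∀ b' ∈ B, b ≠ b' → ∀ v, ¬ (sd v b.1 ≤ b.2 ∧ sd v b'.1 ≤ b'.2))

open Classical in
/-- a choice of a cover -/
def cover (A : Finset (Cell d)) (R : ℕ) : Finset (Cell d × ℕ) :=
  if h : ∃ B, CoverOK A R B then h.choose else ∅

/-- `v` and `v'` are equal or in a common box of `B` -/
def sameC (B : Finset (Cell d × ℕ)) (v v' : Cell d) : Prop :=
  v = v' ∨ ∃ b ∈ B, sd v b.1 ≤ b.2 ∧ sd v' b.1 ≤ b.2

/-! ### Parameters and stages -/

/-- parameters of the construction -/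
structure Par (q : ℕ) where
  V : Finset (Fin q → ℕ)
  lam : Fin q → ℝ
  kap : ℝ
  /-- `n (x, i)` is Poisson of mean `lam i * mu` -/
  mu : ℝ
  E1 : ℕ
  /-- meshes; `g 0 = 1` -/
  g : ℕ → ℕ
  k : ℕ → ℕ
  J : ℕ → ℕ
  K : ℕ → ℕ
  /-- radii: the `i`-th candidate for the radius of a region is `M2 + i * Dl`, `1 ≤ i ≤ m` -/
  M2 : ℕ → ℕ
  Dl : ℕ → ℕ
  m : ℕ → ℕ
  /-- cluster radius and isolation radius -/
  Ds : ℕ → ℕ
  Ss : ℕ → ℕ
  /-- shell width -/
  sh : ℕ → ℕ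
  C4 : ℕ → ℝ
  /-- robustness width -/
  de : ℕ → ℝ

namespace Par

variable (P : Par q)

def R (t : ℕ) : ℕ := (P.J t + 1) * P.k t
def N (t : ℕ) : ℕ := P.K t * P.R t
def Mx (t : ℕ) : ℕ := P.M2 t + P.m t * P.Dl t
def L (t : ℕ) : ℕ := P.g t * (P.Mx t + 1)
/-- mean scale of the cells of stage `t` in dimension `d` -/
def mus (d : ℕ) (t : ℕ) : ℝ := (P.g t : ℝ) ^ d * P.mu
/-- locality radius -/
def om : ℕ → ℕ
  | 0 => 0
  | t + 1 => om t + P.Ss (t + 1) + 2 * P.L (t + 1)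

/-- the grid cell `v` of stage `t` with origin `z` is typical -/
def Typ (t : ℕ) (n : Pl d q → ℕ) (z v : Cell d) : Prop :=
  ∀ i, |(cnt n (P.g t) z (v, i) : ℝ) - P.lam i * P.mus d t| ≤ P.kap / 4 * P.mus d t ∧
    ((∑ x ∈ shellset (P.g t) (P.sh t) z v, n (x, i) : ℕ) : ℝ) ≤ P.kap / 8 * P.mus d t

/-- the base cell `x` is atypical -/
def Atyp0 (n : Pl d q → ℕ) (x : Cell d) : Prop :=
  ∃ i, P.kap / 4 * P.mu < |(n (x, i) : ℝ) - P.lam i * P.mu|

end Par

/-- a state: a partition of `ℤ^d` into finite atoms, with levels and centres -/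
structure St (d : ℕ) where
  at' : Cell d → Finset (Cell d)
  lv : Cell d → ℕ
  ce : Cell d → Cell d

namespace Par

variable (P : Par q)

/-- remaining bad cells -/
def Bad (n : Pl d q → ℕ) (s : St d) (x : Cell d) : Prop := s.lv x = 0 ∧ P.Atyp0 n x

/-- the cube of stage `t`, centre `z` and index radius `ρ` -/
def Qset (t : ℕ) (z : Cell d) (ρ : ℕ) : Finset (Cell d) :=
  Fintype.piFinset fun l => Ico (z l - P.g t * ρ) (z l + P.g t * (ρ + 1))

/-- `z` is the lower corner of an isolated cluster of bad cells -/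
def Ctr (t : ℕ) (n : Pl d q → ℕ) (s : St d) (z : Cell d) : Prop :=
  (∀ l, ∃ y, P.Bad n s y ∧ sd y z ≤ P.Ss t ∧ y l = z l) ∧
  (∀ y, P.Bad n s y → sd y z ≤ P.Ss t → ∀ l, z l ≤ y l ∧ y l ≤ z l + 2 * P.Ds t)

/-- the radius `ρ` is not blocked -/
def Unbl (t : ℕ) (n : Pl d q → ℕ) (s : St d) (z : Cell d) (ρ : ℕ) : Prop :=
  (∀ v : Cell d, sd v 0 ≤ ρ → ρ ≤ sd v 0 + 2 * P.N t + 2 → P.Typ t n z v) ∧
  (∀ x ∈ P.Qset t z ρ, s.at' x ⊆ P.Qset t z ρ ∨ ∀ y ∈ s.at' x, sd x y < P.sh t)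

/-- the radius `i` -/
def rho (t i : ℕ) : ℕ := P.M2 t + i * P.Dl t

/-- `z` is good at stage `t` -/
def Gd (t : ℕ) (n : Pl d q → ℕ) (s : St d) (z : Cell d) : Prop :=
  (∃ i, 1 ≤ i ∧ i ≤ P.m t ∧ P.Unbl t n s z (P.rho t i)) ∧
  (∀ A : Finset (Cell d), (∀ v ∈ A, v ∈ box d (P.Mx t) ∧ ¬ P.Typ t n z v) → A.card ≤ P.K t) ∧
  (∀ v ∈ box d (P.Mx t), ∀ r ≤ P.N t, ∀ u : Pl d q → ℕ,
    (∀ p : Pl d q, p.1 ∈ box d r →
      |(u p : ℝ) - cnt n (P.g t) z (v + p.1, p.2)| ≤ P.de t * P.mus d t) →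
    u ∈ (Astar P.V (P.k t) r : Set (Pl d q → ℕ))) ∧
  (∀ p : Pl d q, p.1 ∈ box d (P.Mx t) → (cnt n (P.g t) z p : ℝ) ≤ P.C4 t * P.mus d t)

open Classical in
/-- the chosen radius: the first unblocked one -/
def rad (t : ℕ) (n : Pl d q → ℕ) (s : St d) (z : Cell d) : ℕ :=
  if h : ∃ i, 1 ≤ i ∧ i ≤ P.m t ∧ P.Unbl t n s z (P.rho t i) then P.rho t (Nat.find h) else 0

open Classical in
/-- atypical grid cells inside the cube of radius `ρ` -/
def Aset (t : ℕ) (n : Pl d q → ℕ) (z : Cell d) (ρ : ℕ) : Finset (Cell d) :=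
  (box d ρ).filter fun v => ¬ P.Typ t n z v

/-- the region of `z`: union of the old atoms contained in the cube -/
def Nreg (t : ℕ) (n : Pl d q → ℕ) (s : St d) (z : Cell d) : Finset (Cell d) :=
  (P.Qset t z (P.rad t n s z)).filter fun x => s.at' x ⊆ P.Qset t z (P.rad t n s z)

open Classical in
/-- the new atom of `x` in the region of `z` -/
def newAt (t : ℕ) (n : Pl d q → ℕ) (s : St d) (z x : Cell d) : Finset (Cell d) :=
  (P.Nreg t n s z).filter fun y =>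
    sameC (cover (P.Aset t n z (P.rad t n s z)) (P.R t)) (idx (P.g t) z x) (idx (P.g t) z y)

/-- `x` is covered by the region of `z` at stage `t` -/
def Cov (t : ℕ) (n : Pl d q → ℕ) (s : St d) (z x : Cell d) : Prop :=
  P.Ctr t n s z ∧ P.Gd t n s z ∧ x ∈ P.Nreg t n s z

open Classical in
/-- one stage -/
def step (t : ℕ) (n : Pl d q → ℕ) (s : St d) : St d where
  at' x := if h : ∃ z, P.Cov t n s z x then P.newAt t n s h.choose x else s.at' x
  lv x := if ∃ z, P.Cov t n s z x then t else s.lv x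
  ce x := if h : ∃ z, P.Cov t n s z x then h.choose else s.ce x

/-- the state after `t` stages -/
def st (n : Pl d q → ℕ) : ℕ → St d
  | 0 => ⟨fun x => {x}, fun _ => 0, fun x => x⟩
  | t + 1 => P.step (t + 1) n (st n t)

/-- geometric conditions on the parameters, and absorption at all stages -/
structure OK (d : ℕ) : Prop where
  hd : 1 ≤ d
  g0 : P.g 0 = 1
  gpos : ∀ t, 1 ≤ P.g t
  gmono : ∀ t, P.g t ≤ P.g (t + 1)
  kapos : 0 < P.kap
  lamk : ∀ i, 2 * P.kap ≤ P.lam i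
  mupos : 0 < P.mu
  E1mu : (P.E1 : ℝ) ≤ P.kap / 8 * P.mu
  shpos : ∀ t, 1 ≤ t → 1 ≤ P.sh t
  shg : ∀ t, 1 ≤ t → 2 * P.sh t < P.g t
  kpos : ∀ t, 4 * d + 4 ≤ P.k t
  kmono : ∀ t, P.k t ≤ P.k (t + 1)
  Jpos : ∀ t, 1 ≤ P.J t
  M2N : ∀ t, 1 ≤ t → 2 * P.N t + 4 ≤ P.M2 t
  M2D : ∀ t, 1 ≤ t → 4 * P.Ds t ≤ P.g t * P.M2 t
  Dsom : ∀ t, 2 * P.om t + 1 ≤ P.Ds (t + 1)
  Sst : ∀ t, 1 ≤ t → 4 * P.L t + 4 * P.Ds t ≤ P.Ss t
  cell0 : CellAbs d P.V P.lam P.kap (P.k 0) P.mu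
  cellt : ∀ t, 1 ≤ t → CellAbs d P.V P.lam P.kap (P.k t) (P.mus d t)
  boxt : ∀ t, 1 ≤ t → ∀ r0, r0 + P.R t ≤ P.N t →
    BoxAbs (d := d) P.V P.lam P.kap (P.k t) (P.J t) (P.C4 t) (P.de t) r0 (P.mus d t)

end Par

end Pool.Agent.H89.PM
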