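import Pool.Agent.H89.PM.Defs2

/-!
# MP_5da387_pr: final state, flow, exports, pools and families (definitions)
-/

set_option autoImplicit false

open Finset MeasureTheory ProbabilityTheory

noncomputable section

namespace Pool.Agent.H89.PM

variable {d q : ℕ}

/-- translate of a content: the configuration seen from `a` -/
def shf (a : Cell d) (n : Pl d q → ℕ) : Pl d q → ℕ := fun p => n (p.1 + a, p.2)

/-- translate of a family by `a` (its places move by `+a`) -/
def trF (a : Cell d) (W : Fam d q) : Fam d q :=
  W.embDomain (((Equiv.addRight a).prodCongr (Equiv.refl (Fin q))).toEmbedding)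

/-- local law of a content: independent Poisson variables -/
def lawN (d : ℕ) (lam : Fin q → ℝ) (mu : ℝ) : Measure (Pl d q → ℕ) :=
  Measure.infinitePi fun p : Pl d q => poissonMeasure (lam p.2 * mu).toNNReal

/-- value of the final state at `x`: atom, level and centre; `none` if it does not stabilise -/
structure FS (d : ℕ) where
  at' : Finset (Cell d)
  lv : ℕ
  ce : Cell d
deriving DecidableEq

namespace Par

variable (P : Par q)

/-- the state of `x` after `t` stages -/
def stx (n : Pl d q → ℕ) (t : ℕ) (x : Cell d) : FS d :=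
  ⟨(P.st n t).at' x, (P.st n t).lv x, (P.st n t).ce x⟩

open Classical in
/-- the final state of `x` -/
def fin (n : Pl d q → ℕ) (x : Cell d) : FS d :=
  if h : ∃ T, ∀ t ≥ T, P.stx n t x = P.stx n T x then P.stx n h.choose x else ⟨{x}, 0, x⟩

/-- the final state is good: everything stabilises, all atoms absorb -/
structure FOK (n : Pl d q → ℕ) : Prop where
  self : ∀ x, x ∈ (P.fin n x).at'
  part : ∀ x, ∀ y ∈ (P.fin n x).at', P.fin n y = P.fin n x
  abs : ∀ x, AtomOK P.V P.E1 (P.k (P.fin n x).lv) (P.g (P.fin n x).lv) n (P.fin n x).ce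
    (P.fin n x).at'

end Par

/-- representatives of the classes: natural vectors bounded by `E1` -/
structure Reps (V : Finset (Fin q → ℕ)) (E1 : ℕ) where
  rep : Gr V → Fin q → ℕ
  cl_rep : ∀ g, cl V (rep g) = g
  le : ∀ g i, rep g i ≤ E1

/-- Local data of an atom in coordinates relative to its centre: the atom, its level, its content
and the flow out of its cells. -/
structure Dat (d q : ℕ) (V : Finset (Fin q → ℕ)) where
  α : Finset (Cell d)
  lv : ℕ
  c : Pl d q → ℕ
  f : Cell d → Gr V

open Classical in
/-- local data of the atom `s` with content `n` and flow `f` (everything relative to the centre,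
and cut off outside the atom) -/
def datOf {V : Finset (Fin q → ℕ)} (s : FS d) (n : Pl d q → ℕ) (f : Cell d → Gr V) : Dat d q V where
  α := s.at'.image fun x => x - s.ce
  lv := s.lv
  c := fun p => if p.1 + s.ce ∈ s.at' then n (p.1 + s.ce, p.2) else 0
  f := fun x => if x + s.ce ∈ s.at' then f (x + s.ce) else 0

/-- `e` is a system of exports of the atom: for every exit edge `(x, x + e1)` a family of points
in the grid cell of `x`, of colour vector `rep (f x)`; all together they are part of the content. -/
def ExpOK {V : Finset (Fin q → ℕ)} {E1 : ℕ} (ρ : Reps V E1) (g : ℕ) (D : Dat d q V)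
    (e : Cell d → Fam d q) : Prop :=
  (∀ x ∈ D.α, x + e1 ∉ D.α → col (e x) = ρ.rep (D.f x) ∧
    ∀ p ∈ (e x).support, p.1 ∈ D.α ∧ idx g 0 p.1 = idx g 0 x) ∧
  (∀ x, (x ∉ D.α ∨ x + e1 ∈ D.α) → e x = 0) ∧
  ∀ p : Pl d q, ∑ x ∈ D.α, e x p ≤ D.c p

open Classical in
/-- the chosen exports of an atom (relative coordinates) -/
def expo {V : Finset (Fin q → ℕ)} {E1 : ℕ} (ρ : Reps V E1) (g : ℕ) (D : Dat d q V) :
    Cell d → Fam d q :=
  if h : ∃ e, ExpOK ρ g D e then h.choose else fun _ => 0

/-- Local data of a pool: the data of the atom and, for every cell `y` of the atom (relative to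
the centre), the import entering at `y` from `y - e1` (relative to the same centre). -/
structure Dat2 (d q : ℕ) (V : Finset (Fin q → ℕ)) where
  D : Dat d q V
  im : Cell d → Fam d q

/-- `L` is a good list of families for the pool: its sum is the pool (content minus exports plus
imports); its members have types in `V`, and have anchors in the atom at distance at most `k g`
from each other. -/
def FamOK {V : Finset (Fin q → ℕ)} {E1 : ℕ} (ρ : Reps V E1) (k g : ℕ) (D : Dat2 d q V)
    (L : List (Fam d q)) : Prop :=
  (∀ p : Pl d q, L.sum p + ∑ x ∈ D.D.α, expo ρ g D.D x p = D.D.c p + ∑ y ∈ D.D.α, D.im y p) ∧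
  ∀ W ∈ L, col W ∈ V ∧ W ≠ 0 ∧ ∃ an : Pl d q → Cell d,
    (∀ p ∈ W.support, an p ∈ D.D.α ∧ (an p = p.1 ∨ p ∈ (D.im (an p)).support)) ∧
    ∀ p ∈ W.support, ∀ p' ∈ W.support, dist2 (an p) (an p') ≤ (k * g) ^ 2

open Classical in
/-- the chosen families of a pool -/
def fams {V : Finset (Fin q → ℕ)} {E1 : ℕ} (ρ : Reps V E1) (k g : ℕ) (D : Dat2 d q V) :
    List (Fam d q) :=
  if h : ∃ L, FamOK ρ k g D L then h.choose else []

namespace Par

variable (P : Par q)

/-- full configurations: content and flow -/
abbrev Cfg (d : ℕ) (P : Par q) := (Pl d q → ℕ) × (Cell d → Gr P.V)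

/-- translate of a configuration -/
def shC (a : Cell d) (c : P.Cfg d) : P.Cfg d := (shf a c.1, fun x => c.2 (x + a))

/-- local data of the atom of `x` -/
def dat (c : P.Cfg d) (x : Cell d) : Dat d q P.V := datOf (P.fin c.1 x) c.1 c.2

/-- exports through the edge `(x, x + e1)` (absolute coordinates) -/
def exq (ρ : Reps P.V P.E1) (c : P.Cfg d) (x : Cell d) : Fam d q :=
  trF (P.fin c.1 x).ce (expo ρ (P.g (P.fin c.1 x).lv) (P.dat c x) (x - (P.fin c.1 x).ce))

open Classical in
/-- local data of the pool of the atom of `x` -/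
def dat2 (ρ : Reps P.V P.E1) (c : P.Cfg d) (x : Cell d) : Dat2 d q P.V where
  D := P.dat c x
  im := fun y => if y + (P.fin c.1 x).ce ∈ (P.fin c.1 x).at' ∧
      y + (P.fin c.1 x).ce - e1 ∉ (P.fin c.1 x).at' then
    trF (-(P.fin c.1 x).ce) (P.exq ρ c (y + (P.fin c.1 x).ce - e1)) else 0

open Classical in
/-- a point of a nonempty finite set of cells -/
def root (α : Finset (Cell d)) : Cell d := if h : α.Nonempty then h.choose else 0

open Classical in
/-- The families attached to the cell 0 (in coordinates relative to 0): if 0 is the root of its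
atom, the families of the pool of this atom; otherwise none. -/
def Phi (ρ : Reps P.V P.E1) (c : P.Cfg d) : List (Fam d q) :=
  if (P.fin c.1 0).ce + root (P.dat c 0).α = 0 then
    (fams ρ (P.k (P.fin c.1 0).lv) (P.g (P.fin c.1 0).lv) (P.dat2 ρ c 0)).map
      (trF (P.fin c.1 0).ce)
  else []

end Par

end Pool.Agent.H89.PM
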