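import Mathlib

/-!
# MP_5da387_pr: sharp exponential tail constant for multicolour Poisson matchings (statement)
-/

set_option autoImplicit false

open MeasureTheory ProbabilityTheory Set
open scoped ENNReal NNReal

namespace Pool.Agent.H89.PM

/-- Euclidean space of dimension `d`. -/
abbrev Sp (d : ℕ) := EuclideanSpace ℝ (Fin d)

/-- The sigma-algebra on the finite subsets of `ℝ^d` generated by the counting maps
`F ↦ #(F ∩ B)`, `B` Borel. -/
@[reducible] noncomputable def finMS (d : ℕ) : MeasurableSpace (Finset (Sp d)) :=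
  ⨆ B : {B : Set (Sp d) // MeasurableSet B},
    MeasurableSpace.comap (fun F : Finset (Sp d) => ((F : Set (Sp d)) ∩ B.1).encard) ⊤

/-- The translate of a finite set. -/
noncomputable def transl {d : ℕ} (v : Sp d) (F : Finset (Sp d)) : Finset (Sp d) :=
  F.map (addRightEmbedding v)

/-- A translation-invariant `V`-matching scheme of independent homogeneous Poisson processes
`Pi 0, …, Pi (q-1)` of intensities `lam 0, …, lam (q-1)` on `ℝ^d`; `M ω` is the matching, a set of
finite families. -/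
structure Scheme (d q : ℕ) (lam : Fin q → ℝ) (V : Finset (Fin q → ℕ)) where
  Om : Type
  mOm : MeasurableSpace Om
  P : Measure Om
  prob : IsProbabilityMeasure P
  /-- the points of colour `i` -/
  Pi : Fin q → Om → Set (Sp d)
  /-- the families -/
  M : Om → Set (Finset (Sp d))
  meas_Pi : ∀ i (B : Set (Sp d)), MeasurableSet B → Measurable fun ω => (Pi i ω ∩ B).encard
  meas_M : ∀ A : Set (Finset (Sp d)), MeasurableSet[finMS d] A →
    Measurable fun ω => (M ω ∩ A).encard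
  /-- independent Poisson processes: counts in bounded sets are Poisson, and counts in
  pairwise disjoint coloured sets are independent -/
  poisson_law : ∀ (i : Fin q) (B : Set (Sp d)), MeasurableSet B → Bornology.IsBounded B →
    P.map (fun ω => (Pi i ω ∩ B).encard) =
      (poissonMeasure ((lam i).toNNReal * (volume B).toNNReal)).map (fun n : ℕ => (n : ℕ∞))
  poisson_indep : ∀ (m : ℕ) (c : Fin m → Fin q) (B : Fin m → Set (Sp d)),
    (∀ j, MeasurableSet (B j)) → (∀ j, Bornology.IsBounded (B j)) →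
    (∀ j j', j ≠ j' → c j ≠ c j' ∨ Disjoint (B j) (B j')) →
    iIndepFun (fun j ω => (Pi (c j) ω ∩ B j).encard) P
  /-- almost surely `M` is a partition of all points into nonempty finite families with types
  in `V` -/
  matching : ∀ᵐ ω ∂P, ∅ ∉ M ω ∧ (M ω).PairwiseDisjoint (fun F => (F : Set (Sp d))) ∧
    (⋃ F ∈ M ω, (F : Set (Sp d))) = ⋃ i, Pi i ω ∧
    ∀ F ∈ M ω, (fun i => ((F : Set (Sp d)) ∩ Pi i ω).ncard) ∈ V
  /-- the joint law of the matching and of the points is translation invariant -/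
  inv : ∀ (v : Sp d) (m n : ℕ) (A : Fin m → Set (Finset (Sp d))) (c : Fin n → Fin q)
    (B : Fin n → Set (Sp d)), (∀ j, MeasurableSet[finMS d] (A j)) →
    (∀ l, MeasurableSet (B l)) →
    P.map (fun ω => ((fun j => (M ω ∩ A j).encard, fun l => (Pi (c l) ω ∩ B l).encard) :
      (Fin m → ℕ∞) × (Fin n → ℕ∞))) =
    P.map (fun ω => ((fun j => {F ∈ M ω | transl v F ∈ A j}.encard,
      fun l => {x ∈ Pi (c l) ω | x + v ∈ B l}.encard) : (Fin m → ℕ∞) × (Fin n → ℕ∞)))

/-- The half-open unit cube. -/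
def ucube (d : ℕ) : Set (Sp d) := {x | ∀ l, 0 ≤ x l ∧ x l < 1}

/-- `P*(X > r)`: the mean number of points of the unit cube whose family has diameter larger
than `r`, divided by the mean number of points of the unit cube. -/
noncomputable def Scheme.tail {d q : ℕ} {lam : Fin q → ℝ} {V : Finset (Fin q → ℕ)}
    (S : Scheme d q lam V) (r : ℝ) : ℝ≥0∞ :=
  letI := S.mOm
  (∫⁻ ω, (({x | x ∈ ucube d ∧ ∃ F ∈ S.M ω, x ∈ F ∧ r < Metric.diam (F : Set (Sp d))}.encard :
    ℕ∞) : ℝ≥0∞) ∂S.P) / ENNReal.ofReal (∑ i, lam i)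

/-- The cone generated by `V`. -/
def coneV {q : ℕ} (V : Finset (Fin q → ℕ)) : Set (Fin q → ℝ) :=
  {x | ∃ c : (Fin q → ℕ) → ℝ, (∀ v, 0 ≤ c v) ∧ x = fun i => ∑ v ∈ V, c v * (v i : ℝ)}

/-- Q1 of MP_5da387_pr. -/
def MainStatement : Prop :=
  ∀ (d q : ℕ), 1 ≤ d → ∀ (lam : Fin q → ℝ), (∀ i, 0 < lam i) →
    ∀ V : Finset (Fin q → ℕ), (∃ i, Pi.single i 1 ∉ V) → lam ∈ interior (coneV V) →
    ∃ a : ℝ, 0 < a ∧
      (∃ S : Scheme d q lam V, ∀ ε : ℝ, 0 < ε → ∃ r0 : ℝ, ∀ r : ℝ, r0 ≤ r →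
        S.tail r ≤ ENNReal.ofReal (Real.exp (-(a - ε) * r ^ d))) ∧
      (∀ S : Scheme d q lam V, ∀ ε : ℝ, 0 < ε → ∃ r0 : ℝ, ∀ r : ℝ, r0 ≤ r →
        ENNReal.ofReal (Real.exp (-(a + ε) * r ^ d)) ≤ S.tail r)

end Pool.Agent.H89.PM
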