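import Pool.Agent.H89.PM.Defs3

/-!
# MP_5da387_pr: targets, part 1 (rates, positivity, lower bound)
-/

set_option autoImplicit false

open Finset MeasureTheory ProbabilityTheory
open scoped ENNReal NNReal

noncomputable section

namespace Pool.Agent.H89.PM

/-! ### Constants of the setting -/

/-- the sup-norm ball of radius `2 kap` around `lam` is in the cone, and `2 kap ≤ lam i` -/
structure CV {q : ℕ} (V : Finset (Fin q → ℕ)) (lam : Fin q → ℝ) (kap : ℝ) : Prop where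
  pos : 0 < kap
  le : ∀ i, 2 * kap ≤ lam i
  cone : ∀ x : Fin q → ℝ, (∀ i, |x i - lam i| ≤ 2 * kap) → x ∈ coneV V

/-- [CVX] -/
def T_CVX : Prop := ∀ (q : ℕ) (V : Finset (Fin q → ℕ)) (lam : Fin q → ℝ), (∀ i, 0 < lam i) →
  lam ∈ interior (coneV V) → ∃ kap, CV V lam kap

/-- [REP] -/
def T_REP : Prop := ∀ (q : ℕ) (V : Finset (Fin q → ℕ)) (lam : Fin q → ℝ) (kap : ℝ),
  CV V lam kap → Finite (Gr V) ∧ ∃ E1 : ℕ, Nonempty (Reps V E1)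

/-! ### The rate function -/

def Ifun (l x : ℝ) : ℝ := x * Real.log (x / l) - x + l

/-- [IH] -/
def T_IH : Prop := ∀ lmin lmax : ℝ, 0 < lmin → lmin ≤ lmax →
  (∀ l x, 0 < l → 0 ≤ x → 0 ≤ Ifun l x) ∧
  (∀ c : ℝ, ∃ C : ℝ, lmax ≤ C ∧ ∀ l, lmin ≤ l → l ≤ lmax → ∀ x, C ≤ x → c ≤ Ifun l x) ∧
  (∀ C : ℝ, 0 < C → ∃ CI : ℝ, 0 < CI ∧ ∀ l, lmin ≤ l → l ≤ lmax → ∀ x y, 0 ≤ x → x ≤ C →
    0 ≤ y → y ≤ C → |Ifun l x - Ifun l y| ≤ CI * Real.sqrt |x - y|)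

/-- [PMF] point masses of the Poisson law -/
def T_PMF : Prop := ∀ (l mu : ℝ), 0 < l → 0 < mu → ∀ u : ℕ,
  (poissonMeasure (l * mu).toNNReal).real {u} ≤ Real.exp (-(mu * Ifun l (u / mu))) ∧
  Real.exp (-(mu * Ifun l (u / mu))) / (Real.exp 1 * (u + 1)) ≤
    (poissonMeasure (l * mu).toNNReal).real {u}

/-- [PTL] Chernoff bounds for the Poisson law -/
def T_PTL : Prop := ∀ (l mu : ℝ), 0 < l → 0 < mu →
  (∀ x, l ≤ x → (poissonMeasure (l * mu).toNNReal).real {n | x * mu ≤ (n : ℝ)} ≤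
    Real.exp (-(mu * Ifun l x))) ∧
  (∀ x, 0 ≤ x → x ≤ l → (poissonMeasure (l * mu).toNNReal).real {n | (n : ℝ) ≤ x * mu} ≤
    Real.exp (-(mu * Ifun l x)))

/-- [RAT] superposition: the rate exists -/
def T_RAT : Prop := ∀ (ι : Type) [Fintype ι] (lam : ι → ℝ), (∀ i, 0 < lam i) →
  ∀ S : Set (ι → ℕ), (∀ u ∈ S, ∀ v ∈ S, u + v ∈ S) → ∀ c : ℝ, ¬ RateGe lam S c →
  ∀ ε > 0, ∃ mu0 : ℝ, ∀ mu ≥ mu0, ∃ u, u ∉ S ∧ cost lam mu u ≤ (c + ε) * mu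

/-- [RLO] -/
def T_RLO : Prop := ∀ (ι : Type) [Fintype ι] (lam : ι → ℝ), (∀ i, 0 < lam i) →
  ∀ S : Set (ι → ℕ), (∀ u ∈ S, ∀ v ∈ S, u + v ∈ S) → ∀ c : ℝ, ¬ RateGe lam S c →
  ∀ ε > 0, ∃ mu0 : ℝ, ∀ mu ≥ mu0, Real.exp (-(c + ε) * mu) ≤
    (Measure.pi fun i : ι => poissonMeasure (lam i * mu).toNNReal).real Sᶜ

/-- [RUP] robust upper bound, with a constant independent of the number of coordinates -/
def T_RUP : Prop := ∀ lmin lmax c : ℝ, 0 < lmin → lmin ≤ lmax → 0 ≤ c → ∃ CI : ℝ, 0 < CI ∧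
  ∀ (ι : Type) [Fintype ι] (lam : ι → ℝ), (∀ i, lmin ≤ lam i ∧ lam i ≤ lmax) →
  ∀ S : Set (ι → ℕ), RateGe lam S c → ∀ δ : ℝ, 0 < δ → δ ≤ 1 → ∀ ε > 0, ∃ mu0 : ℝ, ∀ mu ≥ mu0,
  (Measure.pi fun i : ι => poissonMeasure (lam i * mu).toNNReal).real
    {u | ∃ v, v ∉ S ∧ ∀ i, |(v i : ℝ) - u i| ≤ δ * mu} ≤
  Real.exp (-(c - Fintype.card ι * CI * Real.sqrt δ - ε) * mu)

/-! ### Conductor, cells -/

/-- image of a finitely supported natural function in the integer functions -/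
def toZ {ι : Type*} (m : ι →₀ ℕ) : ι → ℤ := fun p => (m p : ℤ)

/-- [CND] conductor lemma -/
def T_CND : Prop := ∀ (ι : Type) (T : Finset (ι →₀ ℕ)), ∃ C0 : ℕ, ∀ m : ι →₀ ℕ,
  toZ m ∈ AddSubgroup.closure (toZ '' (T : Set (ι →₀ ℕ))) →
  (∃ c : (ι →₀ ℕ) → ℝ, (∀ W, 0 ≤ c W) ∧
    ∀ p, (m p : ℝ) - C0 * ∑ W ∈ T, (W p : ℝ) = ∑ W ∈ T, c W * W p) →
  ∃ z : (ι →₀ ℕ) → ℕ, m = ∑ W ∈ T, z W • W

/-- [CEL] -/
def T_CEL : Prop := ∀ (q : ℕ) (V : Finset (Fin q → ℕ)) (lam : Fin q → ℝ) (kap : ℝ),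
  CV V lam kap → ∃ mu1 : ℝ, 0 < mu1 ∧ ∀ (d k : ℕ), d ≤ k ^ 2 → ∀ mu ≥ mu1,
    CellAbs d V lam kap k mu

/-! ### Lifting -/

/-- [LFT] lifting of decompositions along a map of places -/
def T_LFT : Prop := ∀ (X Y : Type) (π : X → Y) (m : X →₀ ℕ) (L : Multiset (Y →₀ ℕ)),
  m.mapDomain π = L.sum → ∃ L' : Multiset (X →₀ ℕ), L'.sum = m ∧
    L'.map (fun W => W.mapDomain π) = L

/-! ### Positivity -/

/-- [ADD] `Astar` is closed under addition -/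
def T_ADD : Prop := ∀ (d q : ℕ) (V : Finset (Fin q → ℕ)) (k r : ℕ),
  ∀ u ∈ (AstarI V k r : Set (BPl d q r → ℕ)), ∀ v ∈ (AstarI V k r : Set (BPl d q r → ℕ)),
    u + v ∈ (AstarI V k r : Set (BPl d q r → ℕ))

/-- the product of the interval `[A, B]` in the direction `e1` and of `[A', B']` in the others -/
def slab (d : ℕ) (A B A' B' : ℤ) : Finset (Cell d) :=
  Fintype.piFinset fun l => if (l : ℕ) = 0 then Icc A B else Icc A' B'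

/-- [LIN] a typical content on a slab whose line sums have class zero is a sum of families on
pairs of consecutive cells -/
def T_LIN : Prop := ∀ (d q : ℕ), 1 ≤ d → ∀ (V : Finset (Fin q → ℕ)) (lam : Fin q → ℝ) (kap : ℝ),
  CV V lam kap → ∃ M1 : ℝ, 0 < M1 ∧ ∀ M ≥ M1, ∀ (A B A' B' : ℤ) (N : Fam d q), A ≤ B →
  (∀ p ∈ N.support, p.1 ∈ slab d A B A' B') →
  (∀ w ∈ slab d A B A' B', ∀ i, |(N (w, i) : ℝ) - lam i * M| ≤ 3 / 4 * kap * M) →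
  (∀ w ∈ slab d A B A' B', (∀ l : Fin d, (l : ℕ) = 0 → w l = A) →
    cl V (fun i => ∑ j ∈ range ((B - A).toNat + 1), N (w + (j : ℤ) • e1, i)) = 0) →
  ∃ L : Multiset (Fam d q), L.sum = N ∧ ∀ W ∈ L, col W ∈ V ∧ W ≠ 0 ∧
    ∃ w : Cell d, ∀ p ∈ W.support, p.1 = w ∨ p.1 = w - e1

/-- the coarse cube -/
def coarse {d : ℕ} (c : ℕ) (w : Cell d) : Finset (Cell d) :=
  Fintype.piFinset fun l => Ico ((c : ℤ) * w l) (c * w l + c)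

/-- [PSD] if all coarse cubes are typical then `u` is strongly absorbable -/
def T_PSD : Prop := ∀ (d q : ℕ), 1 ≤ d → ∀ (V : Finset (Fin q → ℕ)) (lam : Fin q → ℝ) (kap : ℝ),
  CV V lam kap → ∃ M1 : ℝ, 0 < M1 ∧ ∀ (k r c : ℕ), 1 ≤ c → 4 * d * c ≤ k → ∀ M ≥ M1,
  ∀ u : Pl d q → ℕ,
  (∀ w : Cell d, coarse c w ⊆ box d r →
    ∀ i, |((∑ x ∈ coarse c w, u (x, i) : ℕ) : ℝ) - lam i * M| ≤ kap / 2 * M) →
  (∀ w : Cell d, ¬ coarse c w ⊆ box d r →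
    ∀ i, ((∑ x ∈ coarse c w ∩ box d r, u (x, i) : ℕ) : ℝ) ≤ (lam i + kap / 2) * M) →
  u ∈ (Astar V k r : Set (Pl d q → ℕ))

/-- [POS] -/
def T_POS : Prop := ∀ (d q : ℕ), 1 ≤ d → ∀ (V : Finset (Fin q → ℕ)) (lam : Fin q → ℝ)
  (kap : ℝ), CV V lam kap → ∃ c1 : ℝ, 0 < c1 ∧ ∀ k, 4 * d + 4 ≤ k → ∀ r,
    RateGe (lamB (d := d) lam r) (AstarI V k r) (c1 * ((k : ℝ) - 2 * d) ^ d)

/-- [FNT] the rate is finite -/
def T_FNT : Prop := ∀ (d q : ℕ), 1 ≤ d → ∀ (V : Finset (Fin q → ℕ)) (lam : Fin q → ℝ),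
  (∀ i, 0 < lam i) → (∃ i, Pi.single i 1 ∉ V) →
  ∃ C : ℝ, ∃ r, ¬ RateGe (lamB (d := d) lam r) (AstarI V (4 * d + 4) r) C

/-! ### Lower bound -/

/-- the half-open cube of side `h` with index `v` -/
def hcell {d : ℕ} (h : ℝ) (v : Cell d) : Set (Sp d) := {x | ∀ l, h * v l ≤ x l ∧ x l < h * (v l + 1)}

/-- number of points at a place -/
def Scheme.Nc {d q : ℕ} {lam : Fin q → ℝ} {V : Finset (Fin q → ℕ)} (S : Scheme d q lam V) (h : ℝ)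
    (ω : S.Om) : Pl d q → ℕ := fun p => (S.Pi p.2 ω ∩ hcell h p.1).ncard

/-- [LCE] short families give a decomposition of the cell counts -/
def T_LCE : Prop := ∀ (d q : ℕ), 1 ≤ d → ∀ (lam : Fin q → ℝ) (V : Finset (Fin q → ℕ))
  (S : Scheme d q lam V) (k : ℕ), 2 * d < k → ∀ h : ℝ, 0 < h →
  letI := S.mOm
  ∀ᵐ ω ∂S.P, ∀ X : Finset (Cell d),
    (∀ v ∈ X, ∀ x ∈ hcell h v, ∀ F ∈ S.M ω, x ∈ F →
      Metric.diam (F : Set (Sp d)) ≤ ((k : ℝ) - 2 * d) * h) →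
    ∃ L : Multiset (Fam d q), (∀ W ∈ L, Allowed V k W) ∧
      ∀ p : Pl d q, p.1 ∈ X → L.sum p = S.Nc h ω p

/-- [LLW] law of the cell counts -/
def T_LLW : Prop := ∀ (d q : ℕ) (lam : Fin q → ℝ), (∀ i, 0 < lam i) →
  ∀ (V : Finset (Fin q → ℕ)) (S : Scheme d q lam V) (r : ℕ) (h : ℝ), 0 < h →
  letI := S.mOm
  (Measurable fun ω (p : BPl d q r) => S.Nc h ω p.1) ∧
  S.P.map (fun ω (p : BPl d q r) => S.Nc h ω p.1) =
    Measure.pi fun p : BPl d q r => poissonMeasure (lamB (d := d) lam r p * h ^ d).toNNReal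

/-- [LTL] probability of a long family near a finite set of cells -/
def T_LTL : Prop := ∀ (d q : ℕ) (lam : Fin q → ℝ), (∀ i, 0 < lam i) → 1 ≤ q →
  ∀ (V : Finset (Fin q → ℕ)) (S : Scheme d q lam V) (h s : ℝ), 1 ≤ h → ∀ X : Finset (Cell d),
  letI := S.mOm
  S.P {ω | ∃ v ∈ X, ∃ x ∈ hcell h v, ∃ F ∈ S.M ω, x ∈ F ∧ s < Metric.diam (F : Set (Sp d))} ≤
    (X.card : ℝ≥0∞) * ENNReal.ofReal ((h + 2) ^ d) * ENNReal.ofReal (∑ i, lam i) * S.tail s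

/-- lower bound statement in dimension `d` -/
def LowStmt (d : ℕ) : Prop := ∀ (q : ℕ) (lam : Fin q → ℝ), (∀ i, 0 < lam i) →
  ∀ (V : Finset (Fin q → ℕ)) (kap : ℝ), CV V lam kap → ∀ (S : Scheme d q lam V) (k r : ℕ),
  4 * d + 4 ≤ k → ∀ C : ℝ, (∃ mu0 : ℝ, ∀ mu ≥ mu0, Real.exp (-C * mu) ≤
    (Measure.pi fun p : BPl d q r => poissonMeasure (lamB (d := d) lam r p * mu).toNNReal).real
      (AstarI V k r)ᶜ) →
  ∀ ε > 0, ∃ s0 : ℝ, ∀ s ≥ s0,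
    ENNReal.ofReal (Real.exp (-(C / ((k : ℝ) - 2 * d) ^ d + ε) * s ^ d)) ≤ S.tail s

/-- [LO2] -/
def T_LO2 : Prop := ∀ d, 2 ≤ d → LowStmt d

/-- blocks of cells on the line: interval of integers -/
def ival (a b : ℤ) : Finset (Cell 1) := Fintype.piFinset fun _ => Icc a b

/-- the block with centre `c` (radius `r`) of `n` cannot be absorbed with spill classes `g` -/
def BadBlk {q : ℕ} (V : Finset (Fin q → ℕ)) (k r : ℕ) (n : Pl 1 q → ℕ) (c : ℤ)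
    (g : Bool → Gr V) : Prop :=
  g false + g true + cl V (fun i => ∑ x ∈ ival (c - r) (c + r), n (x, i)) = 0 ∧
  ¬ ∃ L' : Multiset (Fam 1 q), (∀ W ∈ L', Allowed V k W) ∧
    (∀ p : Pl 1 q, p.1 ∈ box 1 r → L'.sum p = n (p.1 + fun _ => c, p.2)) ∧
    ∀ s, cl V (col (L'.sum.filter fun p => p.1 ∉ box 1 r ∧ side p.1 = s)) = g s

/-- [CHN] deterministic chain lemma in dimension one: if an interval is decomposed, then the
classes at all bad blocks are linked by one constant -/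
def T_CHN : Prop := ∀ (q : ℕ) (V : Finset (Fin q → ℕ)) (k r : ℕ) (a b : ℤ) (n : Pl 1 q → ℕ)
  (L : Multiset (Fam 1 q)), (∀ W ∈ L, Allowed V k W) →
  (∀ p : Pl 1 q, p.1 ∈ ival a b → L.sum p = n p) →
  ∃ gs : Gr V, ∀ (c : ℤ) (g : Bool → Gr V), a + r + k ≤ c → c + r + k ≤ b →
    BadBlk V k r n c g →
    gs + cl V (fun i => ∑ x ∈ ival a (c - r - 1), n (x, i)) ≠ g false

/-- [CLP] classes of Poisson vectors have positive probabilities, uniformly in the mean -/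
def T_CLP : Prop := ∀ (q : ℕ) (V : Finset (Fin q → ℕ)) (lam : Fin q → ℝ) (kap : ℝ),
  CV V lam kap → ∃ cG : ℝ, 0 < cG ∧ ∀ mu ≥ 1, ∀ g : Gr V, cG ≤
    (Measure.pi fun i : Fin q => poissonMeasure (lam i * mu).toNNReal).real {u | cl V u = g}

/-- configurations on `[-R, R]` with bad blocks excluding every constant -/
def ChainBad {q : ℕ} (V : Finset (Fin q → ℕ)) (k r R : ℕ) : Set (Pl 1 q → ℕ) :=
  {n | ∀ γ : Gr V, ∃ (c : ℤ) (g : Bool → Gr V), -(R : ℤ) + r + k ≤ c ∧ c + r + k ≤ R ∧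
    BadBlk V k r n c g ∧ γ + cl V (fun i => ∑ x ∈ ival (-(R : ℤ)) (c - r - 1), n (x, i)) = g false}

/-- [CHP] -/
def T_CHP : Prop := ∀ (q : ℕ) (V : Finset (Fin q → ℕ)) (lam : Fin q → ℝ) (kap : ℝ),
  CV V lam kap → ∃ cE : ℝ, 0 < cE ∧ ∀ k r : ℕ, ∃ Cr : ℝ, ∀ h : ℝ, 1 ≤ h → ∀ pr : ℝ, 0 < pr →
    pr ≤ (lawN 1 lam h).real {n | (fun p : BPl 1 q r => n p.1) ∉ AstarI V k r} →
    ∃ R : ℕ, (R : ℝ) ≤ Cr / pr ∧ cE ≤ (lawN 1 lam h).real (ChainBad V k r R)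

/-- [LO1] -/
def T_LO1 : Prop := LowStmt 1

end Pool.Agent.H89.PM
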