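import Pool.Agent.H89.PM.Targets1

/-!
# MP_5da387_pr: targets, part 2 (the box lemma, covers)
-/

set_option autoImplicit false

open Finset

noncomputable section

namespace Pool.Agent.H89.PM

/-- [COV] -/
def T_COV : Prop := ∀ (d : ℕ) (A : Finset (Cell d)) (R : ℕ), ∃ B, CoverOK A R B

/-- allowed families supported in a finite set of places -/
def AdmSet {d q : ℕ} (V : Finset (Fin q → ℕ)) (k : ℕ) (Ω : Finset (Pl d q)) : Set (Fam d q) :=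
  {W | Allowed V k W ∧ W.support ⊆ Ω}

/-- [AFN] -/
def T_AFN : Prop := ∀ (d q : ℕ) (V : Finset (Fin q → ℕ)) (k : ℕ) (Ω : Finset (Pl d q)),
  (AdmSet V k Ω).Finite

open Classical in
/-- places of the box of radius `R` outside `Js` -/
def omg {d q : ℕ} (R : ℕ) (Js : Finset (Pl d q)) : Finset (Pl d q) :=
  (box d R ×ˢ (Finset.univ : Finset (Fin q))) \ Js

/-- [FRK] Farkas lemma for finitely many natural vectors: `y` is a nonnegative combination of the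
vectors of `T` on `Ω`, or there is a separating vector. -/
def T_FRK : Prop := ∀ (ι : Type) (Ω : Finset ι) (T : Finset (ι →₀ ℕ)) (y : ι → ℝ),
  (∃ c : (ι →₀ ℕ) → ℝ, (∀ W, 0 ≤ c W) ∧ ∀ p ∈ Ω, y p = ∑ W ∈ T, c W * W p) ∨
  ∃ w : ι → ℝ, (∀ W ∈ T, 0 ≤ ∑ p ∈ Ω, w p * W p) ∧ ∑ p ∈ Ω, w p * y p < 0

/-- [CON] cone part of the box lemma -/
def T_CON : Prop := ∀ (d q : ℕ), 1 ≤ d → ∀ (V : Finset (Fin q → ℕ)) (lam : Fin q → ℝ)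
  (kap Cy : ℝ), CV V lam kap → (∀ i, lam i + kap ≤ Cy) → kap ≤ Cy →
  ∀ (k J r0 : ℕ), 4 * d + 4 ≤ k → 1 ≤ J → ∀ ε : ℝ, 0 < ε → ε ≤ 1 →
  (1 - kap / Cy) ^ J * (2 * Cy) ≤ ε * kap → ∀ mu : ℝ, 0 < mu →
  ∀ (Js : Finset (Pl d q)), (∀ p ∈ Js, p.1 ∈ box d r0) → ∀ y : Pl d q → ℕ,
  (∀ p ∈ omg (r0 + (J + 1) * k) Js, p.1 ∉ box d r0 → |(y p : ℝ) - lam p.2 * mu| ≤ kap * mu) →
  (∀ p ∈ omg (r0 + (J + 1) * k) Js, p.1 ∈ box d r0 → 2 / ε ≤ y p) →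
  (∀ j, 1 ≤ j → j ≤ J → ∀ u : Pl d q → ℕ, (∀ p ∈ Js, u p = 0) →
    (∀ p ∈ omg (r0 + j * k) Js, p.1 ∈ box d r0 → |(u p : ℝ) - y p| ≤ ε * y p) →
    (∀ p ∈ omg (r0 + j * k) Js, p.1 ∉ box d r0 → u p = y p) →
    ∃ L : Multiset (Fam d q), (∀ W ∈ L, Allowed V k W) ∧
      ∀ p : Pl d q, p.1 ∈ box d (r0 + j * k) → L.sum p = u p) →
  ∀ T : Finset (Fam d q), (T : Set (Fam d q)) = AdmSet V k (omg (r0 + (J + 1) * k) Js) →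
  ∃ c : Fam d q → ℝ, (∀ W, 0 ≤ c W) ∧
    ∀ p ∈ omg (r0 + (J + 1) * k) Js, (y p : ℝ) = ∑ W ∈ T, c W * W p

/-- [DRP] families not meeting a large box can be dropped -/
def T_DRP : Prop := ∀ (d q : ℕ), 1 ≤ d → ∀ (V : Finset (Fin q → ℕ)) (k r : ℕ), k ≤ 2 * r + 1 →
  ∀ u ∈ (Astar V k r : Set (Pl d q → ℕ)), ∀ g : Bool → Gr V, (d ≠ 1 → g true = 0) →
  g false + g true + cl V (fun i => ∑ x ∈ box d r, u (x, i)) = 0 →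
  ∃ L : Multiset (Fam d q), (∀ W ∈ L, Allowed V k W ∧ (∃ p ∈ W.support, p.1 ∈ box d r) ∧
      ∀ p ∈ W.support, p.1 ∈ box d (r + k - 1)) ∧
    (∀ p : Pl d q, p.1 ∈ box d r → L.sum p = u p) ∧
    ∀ b, cl V (col (L.sum.filter fun p => p.1 ∉ box d r ∧ side p.1 = b)) = g b

/-- [ANN] lattice of an annulus: integer functions on one side of the annulus with class zero are
combinations of allowed families inside the annulus -/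
def T_ANN : Prop := ∀ (d q : ℕ), 1 ≤ d → ∀ (V : Finset (Fin q → ℕ)) (lam : Fin q → ℝ)
  (kap : ℝ), CV V lam kap → ∀ (k R1 Rp : ℕ), 4 * d + 4 ≤ k → R1 < Rp → ∀ b : Bool,
  ∀ z : Pl d q → ℤ, (∀ p, z p ≠ 0 → p.1 ∈ box d Rp ∧ p.1 ∉ box d R1 ∧ side p.1 = b) →
  clz V (fun i => ∑ x ∈ box d Rp, z (x, i)) = 0 →
  z ∈ AddSubgroup.closure (toZ '' AdmSet V k (omg Rp (box d R1 ×ˢ (Finset.univ : Finset (Fin q)))))

/-- [LAT] lattice part of the box lemma -/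
def T_LAT : Prop := ∀ (d q : ℕ), 1 ≤ d → ∀ (V : Finset (Fin q → ℕ)) (lam : Fin q → ℝ)
  (kap : ℝ), CV V lam kap → ∀ (k R1 Rp : ℕ), 4 * d + 4 ≤ k → k ≤ 2 * R1 + 1 → R1 + k ≤ Rp →
  ∀ (Js : Finset (Pl d q)), (∀ p ∈ Js, p.1 ∈ box d R1) → ∀ y : Pl d q → ℕ,
  (∀ p ∈ Js, y p = 0) →
  y ∈ (Astar V k R1 : Set (Pl d q → ℕ)) →
  (∀ p ∈ omg R1 Js, (y + Pi.single p 1) ∈ (Astar V k R1 : Set (Pl d q → ℕ))) →
  ∀ z : Pl d q → ℤ, (∀ p, z p ≠ 0 → p ∈ omg Rp Js) →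
  clz V (fun i => ∑ x ∈ box d Rp, z (x, i)) = 0 →
  z ∈ AddSubgroup.closure (toZ '' AdmSet V k (omg Rp Js))

/-- [GAP] pigeonhole: there is a gap in the values of `n` on a finite set -/
def T_GAP : Prop := ∀ (ι : Type) (s : Finset ι) (n : ι → ℝ) (η ρ : ℝ), 0 < η → 0 < ρ → ρ < 1 →
  ∃ i ≤ s.card, ∀ p ∈ s, n p < η * ρ ^ (i + 1) ∨ η * ρ ^ i ≤ n p

/-- [BOX] the box lemma -/
def T_BOX : Prop := ∀ (d q : ℕ), 1 ≤ d → ∀ (V : Finset (Fin q → ℕ)) (lam : Fin q → ℝ)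
  (kap Cy : ℝ), CV V lam kap → (∀ i, lam i + kap ≤ Cy) → kap ≤ Cy →
  ∀ (k J : ℕ) (C4 eps1 : ℝ), 4 * d + 4 ≤ k → 1 ≤ J → 1 ≤ C4 → 0 < eps1 → eps1 ≤ 1 →
  eps1 ≤ kap →
  (1 - kap / Cy) ^ J * (2 * Cy) * (4 * C4) ≤ eps1 * kap → ∀ r0 : ℕ,
  ∃ mu1 : ℝ, 0 < mu1 ∧ ∀ mu ≥ mu1, BoxAbs (d := d) V lam kap k J C4 eps1 r0 mu

end Pool.Agent.H89.PM
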