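import Pool.Agent.H89.PM.Targets2

/-!
# MP_5da387_pr: targets, part 3 (the multi-scale construction, deterministic part)
-/

set_option autoImplicit false

open Finset

noncomputable section

namespace Pool.Agent.H89.PM

variable {d q : ℕ}

namespace Par

variable (P : Par q)

/-- invariants of the state after `t` stages -/
structure Inv (n : Pl d q → ℕ) (t : ℕ) : Prop where
  self : ∀ x, x ∈ (P.st n t).at' x
  part : ∀ x, ∀ y ∈ (P.st n t).at' x, (P.st n t).at' y = (P.st n t).at' x ∧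
    (P.st n t).lv y = (P.st n t).lv x ∧ (P.st n t).ce y = (P.st n t).ce x
  zero : ∀ x, (P.st n t).lv x = 0 → (P.st n t).at' x = {x} ∧ (P.st n t).ce x = x
  le : ∀ x, (P.st n t).lv x ≤ t
  diam : ∀ x, 1 ≤ (P.st n t).lv x → ∀ y ∈ (P.st n t).at' x,
    sd x y ≤ (2 * P.N ((P.st n t).lv x) + 1) * P.g ((P.st n t).lv x)
  near : ∀ x, 1 ≤ (P.st n t).lv x → ∃ y, P.Bad n (P.st n ((P.st n t).lv x - 1)) y ∧
    sd x y ≤ 2 * P.L ((P.st n t).lv x)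
  ok : ∀ x, ¬ P.Bad n (P.st n t) x →
    AtomOK P.V P.E1 (P.k ((P.st n t).lv x)) (P.g ((P.st n t).lv x)) n ((P.st n t).ce x)
      ((P.st n t).at' x)

end Par

/-- [AT0] base cells which are not atypical are good atoms -/
def T_AT0 : Prop := ∀ (d q : ℕ) (P : Par q), P.OK d → ∀ (n : Pl d q → ℕ) (x : Cell d),
  ¬ P.Atyp0 n x → AtomOK P.V P.E1 (P.k 0) (P.g 0) n x {x}

/-- [UNQ] two different centres of the same stage are far apart -/
def T_UNQ : Prop := ∀ (d q : ℕ) (P : Par q), P.OK d → ∀ (n : Pl d q → ℕ) (s : St d) (t : ℕ),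
  1 ≤ t → ∀ z z' : Cell d, P.Ctr t n s z → P.Ctr t n s z' → sd z z' + 2 * P.Ds t ≤ P.Ss t → z = z'

/-- [NRG] the region of a good centre contains all inner grid cells and, of the outermost grid
cells, everything but the shell -/
def T_NRG : Prop := ∀ (d q : ℕ) (P : Par q), P.OK d → ∀ (n : Pl d q → ℕ) (s : St d) (t : ℕ),
  1 ≤ t → (∀ x, x ∈ s.at' x) → ∀ z : Cell d, P.Gd t n s z →
  P.Nreg t n s z ⊆ P.Qset t z (P.rad t n s z) ∧
  P.M2 t ≤ P.rad t n s z ∧ P.rad t n s z ≤ P.Mx t ∧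
  P.Unbl t n s z (P.rad t n s z) ∧
  (∀ v : Cell d, sd v 0 < P.rad t n s z → cellset (P.g t) z v ⊆ P.Nreg t n s z) ∧
  (∀ v : Cell d, sd v 0 = P.rad t n s z →
    cellset (P.g t) z v \ shellset (P.g t) (P.sh t) z v ⊆ P.Nreg t n s z)

/-- [ATC] a new atom consisting of one grid cell is good -/
def T_ATC : Prop := ∀ (d q : ℕ) (P : Par q), P.OK d → ∀ (n : Pl d q → ℕ) (s : St d) (t : ℕ),
  1 ≤ t → (∀ x, x ∈ s.at' x) → ∀ z x : Cell d, P.Gd t n s z → x ∈ P.Nreg t n s z →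
  (¬ ∃ b ∈ cover (P.Aset t n z (P.rad t n s z)) (P.R t), sd (idx (P.g t) z x) b.1 ≤ b.2) →
  AtomOK P.V P.E1 (P.k t) (P.g t) n z (P.newAt t n s z x)

/-- [ATB] a new atom consisting of a box of grid cells is good -/
def T_ATB : Prop := ∀ (d q : ℕ) (P : Par q), P.OK d → ∀ (n : Pl d q → ℕ) (s : St d) (t : ℕ),
  1 ≤ t → (∀ x, x ∈ s.at' x) → ∀ z x : Cell d, P.Gd t n s z → x ∈ P.Nreg t n s z →
  (∃ b ∈ cover (P.Aset t n z (P.rad t n s z)) (P.R t), sd (idx (P.g t) z x) b.1 ≤ b.2) →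
  AtomOK P.V P.E1 (P.k t) (P.g t) n z (P.newAt t n s z x)

/-- [INV] -/
def T_INV : Prop := ∀ (d q : ℕ) (P : Par q), P.OK d → ∀ (n : Pl d q → ℕ) (t : ℕ), P.Inv n t

/-- [CVG] a remaining bad cell has another bad cell at intermediate distance or is near a bad
centre -/
def T_CVG : Prop := ∀ (d q : ℕ) (P : Par q), P.OK d → ∀ (n : Pl d q → ℕ) (t : ℕ) (x : Cell d),
  P.Bad n (P.st n (t + 1)) x → P.Bad n (P.st n t) x ∧
  ((∃ y, P.Bad n (P.st n t) y ∧ P.Ds (t + 1) < sd x y ∧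
      sd x y ≤ P.Ss (t + 1) + P.Ds (t + 1)) ∨
    ∃ z, sd x z ≤ P.Ds (t + 1) ∧ ¬ P.Gd (t + 1) n (P.st n t) z)

/-- [CHG] where the state changes there is a bad cell -/
def T_CHG : Prop := ∀ (d q : ℕ) (P : Par q), P.OK d → ∀ (n : Pl d q → ℕ) (t : ℕ) (x : Cell d),
  P.stx n (t + 1) x ≠ P.stx n t x → ∃ y, P.Bad n (P.st n t) y ∧ sd x y ≤ 2 * P.L (t + 1)

/-- [LOC] locality -/
def T_LOC : Prop := ∀ (d q : ℕ) (P : Par q), P.OK d → ∀ (n n' : Pl d q → ℕ) (t : ℕ) (x : Cell d),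
  (∀ y, sd x y ≤ P.om t → ∀ i, n (y, i) = n' (y, i)) → P.stx n t x = P.stx n' t x

/-- [LOG] locality of goodness -/
def T_LOG : Prop := ∀ (d q : ℕ) (P : Par q), P.OK d → ∀ (n n' : Pl d q → ℕ) (t : ℕ) (z : Cell d),
  (∀ y, sd z y ≤ 2 * P.L (t + 1) + P.om t → ∀ i, n (y, i) = n' (y, i)) →
  (P.Gd (t + 1) n (P.st n t) z ↔ P.Gd (t + 1) n' (P.st n' t) z)

/-- [EQV] equivariance under translations -/
def T_EQV : Prop := ∀ (d q : ℕ) (P : Par q), P.OK d → ∀ (n : Pl d q → ℕ) (t : ℕ) (a x : Cell d),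
  (P.st (shf a n) t).at' x = ((P.st n t).at' (x + a)).image (fun y => y - a) ∧
  (P.st (shf a n) t).lv x = (P.st n t).lv (x + a) ∧
  (P.st (shf a n) t).ce x = (P.st n t).ce (x + a) - a

/-- [BLK] a blocked radius forces an atypical grid cell or a bad cell near the corresponding
sphere -/
def T_BLK : Prop := ∀ (d q : ℕ) (P : Par q), P.OK d → ∀ (n : Pl d q → ℕ) (t j0 : ℕ) (z : Cell d)
  (ρ : ℕ), 1 ≤ j0 → (∀ j, 1 ≤ j → j < j0 → (2 * P.N j + 1) * P.g j < P.sh (t + 1)) →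
  (∀ j, j ≤ t → P.L j ≤ P.L t) → (∀ j, 1 ≤ j → (2 * P.N j + 1) * P.g j ≤ P.L j) →
  ρ ≤ P.Mx (t + 1) → ¬ P.Unbl (t + 1) n (P.st n t) z ρ →
  (∃ v : Cell d, sd v 0 ≤ ρ ∧ ρ ≤ sd v 0 + 2 * P.N (t + 1) + 2 ∧ ¬ P.Typ (t + 1) n z v) ∨
  ∃ y, P.Bad n (P.st n (j0 - 1)) y ∧ sd y z ≤ P.g (t + 1) * (ρ + 1) + 3 * P.L t ∧
    P.g (t + 1) * ρ ≤ sd y z + 3 * P.L t

end Pool.Agent.H89.PM
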