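import Pool.Agent.H89.PM.Targets3

/-!
# MP_5da387_pr: targets, part 4 (probability estimates)
-/

set_option autoImplicit false

open Finset MeasureTheory ProbabilityTheory
open scoped ENNReal NNReal

noncomputable section

namespace Pool.Agent.H89.PM

/-- [CNL] law of the grid contents -/
def T_CNL : Prop := ∀ (d q : ℕ) (lam : Fin q → ℝ), (∀ i, 0 < lam i) → ∀ mu : ℝ, 0 < mu →
  ∀ (g : ℕ), 1 ≤ g → ∀ z : Cell d,
  (Measurable fun n : Pl d q → ℕ => cnt n g z) ∧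
  (lawN d lam mu).map (fun n => cnt n g z) = lawN d lam ((g : ℝ) ^ d * mu)

/-- [SHL] translation invariance of the law -/
def T_SHL : Prop := ∀ (d q : ℕ) (lam : Fin q → ℝ) (mu : ℝ) (a : Cell d),
  MeasurePreserving (shf (q := q) a) (lawN d lam mu) (lawN d lam mu)

/-- `F` depends on `n` only through the cells of `B` -/
def DepOn {d q : ℕ} (B : Set (Cell d)) (E : Set (Pl d q → ℕ)) : Prop :=
  ∀ n n' : Pl d q → ℕ, (∀ x ∈ B, ∀ i, n (x, i) = n' (x, i)) → (n ∈ E ↔ n' ∈ E)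

/-- [DEP] events depending on finitely many cells are measurable; events depending on disjoint
sets of cells are independent -/
def T_DEP : Prop := ∀ (d q : ℕ) (lam : Fin q → ℝ) (mu : ℝ),
  (∀ (B : Finset (Cell d)) (E : Set (Pl d q → ℕ)), DepOn (B : Set (Cell d)) E →
    MeasurableSet E) ∧
  (∀ (m : ℕ) (B : Fin m → Finset (Cell d)) (E : Fin m → Set (Pl d q → ℕ)),
    (∀ j, DepOn (B j : Set (Cell d)) (E j)) → (∀ j j', j ≠ j' → Disjoint (B j) (B j')) →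
    lawN d lam mu (⋂ j, E j) = ∏ j, lawN d lam mu (E j))

/-- [TYP] atypical cells have exponentially small probability -/
def T_TYP : Prop := ∀ (d q : ℕ), 1 ≤ d → ∀ (lam : Fin q → ℝ) (kap : ℝ), 0 < kap →
  (∀ i, 2 * kap ≤ lam i) → ∃ cst β M0 : ℝ, 0 < cst ∧ 0 < β ∧ 0 < M0 ∧
  ∀ P : Par q, P.lam = lam → P.kap = kap → 0 < P.mu →
  (M0 ≤ P.mu → ∀ x : Cell d, lawN d lam P.mu {n | P.Atyp0 n x} ≤
    ENNReal.ofReal (Real.exp (-cst * P.mu))) ∧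
  ∀ t, 1 ≤ P.g t → 2 * P.sh t < P.g t → (P.sh t : ℝ) ≤ β * P.g t → M0 ≤ P.mus d t →
    ∀ z v : Cell d, lawN d lam P.mu {n | ¬ P.Typ t n z v} ≤
      ENNReal.ofReal (Real.exp (-cst * P.mus d t))

/-- [RBP] probability that a box is not robustly absorbable -/
def T_RBP : Prop := ∀ (d q : ℕ), 1 ≤ d → ∀ (V : Finset (Fin q → ℕ)) (lam : Fin q → ℝ) (kap : ℝ),
  CV V lam kap → ∀ c : ℝ, 0 ≤ c → ∃ CI : ℝ, 0 < CI ∧ ∀ (k r : ℕ),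
  RateGe (lamB (d := d) lam r) (AstarI V k r) c → ∀ δ : ℝ, 0 < δ → δ ≤ 1 → ∀ ε > 0,
  ∃ mu0 : ℝ, ∀ mu > 0, ∀ g : ℕ, 1 ≤ g → mu0 ≤ (g : ℝ) ^ d * mu → ∀ z v : Cell d,
  lawN d lam mu {n | ¬ ∀ u : Pl d q → ℕ,
    (∀ p : Pl d q, p.1 ∈ box d r →
      |(u p : ℝ) - cnt n g z (v + p.1, p.2)| ≤ δ * ((g : ℝ) ^ d * mu)) →
    u ∈ (Astar V k r : Set (Pl d q → ℕ))} ≤
  ENNReal.ofReal (Real.exp (-(c - ((2 * r + 1) ^ d * q : ℕ) * CI * Real.sqrt δ - ε) *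
    ((g : ℝ) ^ d * mu)))

/-- [C4P] probability of a large content -/
def T_C4P : Prop := ∀ (d q : ℕ) (lam : Fin q → ℝ), (∀ i, 0 < lam i) → ∀ c : ℝ,
  ∃ C : ℝ, 1 ≤ C ∧ ∀ mu > 0, ∀ g : ℕ, 1 ≤ g → ∀ (z : Cell d) (p : Pl d q),
  lawN d lam mu {n | C * ((g : ℝ) ^ d * mu) < cnt n g z p} ≤
    ENNReal.ofReal (Real.exp (-c * ((g : ℝ) ^ d * mu)))

/-- Numerical data of the probability estimates: `b t` bounds the probability of a remaining bad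
cell after `t` stages, `ty t` of an atypical grid cell, `pr t` of a box which is not robustly
absorbable, `pc t` of a large content, `j0 t` is the first medium level. -/
structure PrData where
  b : ℕ → ℝ
  ty : ℕ → ℝ
  pr : ℕ → ℝ
  pc : ℕ → ℝ
  j0 : ℕ → ℕ

/-- probability estimates and numerical conditions -/
structure PrOK {q : ℕ} (d : ℕ) (P : Par q) (D : PrData) : Prop where
  bpos : ∀ t, 0 < D.b t ∧ D.b t ≤ 1
  typos : ∀ t, 0 ≤ D.ty t ∧ 0 ≤ D.pr t ∧ 0 ≤ D.pc t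
  aty : ∀ x : Cell d, lawN d P.lam P.mu {n | P.Atyp0 n x} ≤ ENNReal.ofReal (D.b 0)
  typ : ∀ t, ∀ z v : Cell d, lawN d P.lam P.mu {n | ¬ P.Typ (t + 1) n z v} ≤
    ENNReal.ofReal (D.ty (t + 1))
  rob : ∀ t, ∀ z v : Cell d, ∀ r ≤ P.N (t + 1), lawN d P.lam P.mu {n | ¬ ∀ u : Pl d q → ℕ,
    (∀ p : Pl d q, p.1 ∈ box d r →
      |(u p : ℝ) - cnt n (P.g (t + 1)) z (v + p.1, p.2)| ≤ P.de (t + 1) * P.mus d (t + 1)) →
    u ∈ (Astar P.V (P.k (t + 1)) r : Set (Pl d q → ℕ))} ≤ ENNReal.ofReal (D.pr (t + 1))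
  con : ∀ t, ∀ z : Cell d, ∀ p : Pl d q, lawN d P.lam P.mu
    {n | P.C4 (t + 1) * P.mus d (t + 1) < cnt n (P.g (t + 1)) z p} ≤
    ENNReal.ofReal (D.pc (t + 1))
  j0pos : ∀ t, 1 ≤ D.j0 (t + 1) ∧ D.j0 (t + 1) ≤ t + 1
  j0sh : ∀ t j, 1 ≤ j → j < D.j0 (t + 1) → (2 * P.N j + 1) * P.g j < P.sh (t + 1)
  Lmono : ∀ t, P.L t ≤ P.L (t + 1)
  NgL : ∀ t, (2 * P.N t + 1) * P.g t ≤ P.L t
  /-- the annuli are disjoint -/
  Dl : ∀ t, P.g (t + 1) * (2 * P.N (t + 1) + 6) + 8 * P.L t + 2 * P.om t + 2 ≤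
    P.g (t + 1) * P.Dl (t + 1)
  /-- squares -/
  sq : ∀ t, ((2 * (P.Ss (t + 1) + P.Ds (t + 1)) + 1 : ℕ) : ℝ) ^ d * D.b t ^ 2 ≤
    D.b (t + 1) / 2
  /-- failures -/
  fail : ∀ t, ((2 * P.Ds (t + 1) + 1 : ℕ) : ℝ) ^ d *
    ((((2 * P.Mx (t + 1) + 1 : ℕ) : ℝ) ^ d * D.ty (t + 1) +
        ((4 * P.L (t + 1) + 8 * P.L t + 1 : ℕ) : ℝ) ^ d * D.b (D.j0 (t + 1) - 1)) ^
          P.m (t + 1) +
      (((2 * P.Mx (t + 1) + 1 : ℕ) : ℝ) ^ d * D.ty (t + 1)) ^ (P.K (t + 1) + 1) +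
      ((2 * P.Mx (t + 1) + 1 : ℕ) : ℝ) ^ d * (P.N (t + 1) + 1) * D.pr (t + 1) +
      ((2 * P.Mx (t + 1) + 1 : ℕ) : ℝ) ^ d * q * D.pc (t + 1)) ≤ D.b (t + 1) / 2

/-- the failure probability of stage `t + 1` -/
def PrData.e {q : ℕ} (D : PrData) (d : ℕ) (P : Par q) (t : ℕ) : ℝ :=
  (((2 * P.Mx (t + 1) + 1 : ℕ) : ℝ) ^ d * D.ty (t + 1) +
        ((4 * P.L (t + 1) + 8 * P.L t + 1 : ℕ) : ℝ) ^ d * D.b (D.j0 (t + 1) - 1)) ^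
          P.m (t + 1) +
      (((2 * P.Mx (t + 1) + 1 : ℕ) : ℝ) ^ d * D.ty (t + 1)) ^ (P.K (t + 1) + 1) +
      ((2 * P.Mx (t + 1) + 1 : ℕ) : ℝ) ^ d * (P.N (t + 1) + 1) * D.pr (t + 1) +
      ((2 * P.Mx (t + 1) + 1 : ℕ) : ℝ) ^ d * q * D.pc (t + 1)

/-- [GD1] probability that all radii are blocked -/
def T_GD1 : Prop := ∀ (d q : ℕ) (P : Par q) (D : PrData), P.OK d → PrOK d P D → ∀ t : ℕ,
  (∀ y : Cell d, lawN d P.lam P.mu {n | P.Bad n (P.st n (D.j0 (t + 1) - 1)) y} ≤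
    ENNReal.ofReal (D.b (D.j0 (t + 1) - 1))) → ∀ z : Cell d,
  lawN d P.lam P.mu {n | ¬ ∃ i, 1 ≤ i ∧ i ≤ P.m (t + 1) ∧
      P.Unbl (t + 1) n (P.st n t) z (P.rho (t + 1) i)} ≤
    ENNReal.ofReal ((((2 * P.Mx (t + 1) + 1 : ℕ) : ℝ) ^ d * D.ty (t + 1) +
        ((4 * P.L (t + 1) + 8 * P.L t + 1 : ℕ) : ℝ) ^ d * D.b (D.j0 (t + 1) - 1)) ^
          P.m (t + 1))

/-- [GD2] probability of many atypical grid cells -/
def T_GD2 : Prop := ∀ (d q : ℕ) (P : Par q) (D : PrData), P.OK d → PrOK d P D → ∀ t : ℕ,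
  ∀ z : Cell d,
  lawN d P.lam P.mu {n | ¬ ∀ A : Finset (Cell d),
      (∀ v ∈ A, v ∈ box d (P.Mx (t + 1)) ∧ ¬ P.Typ (t + 1) n z v) → A.card ≤ P.K (t + 1)} ≤
    ENNReal.ofReal ((((2 * P.Mx (t + 1) + 1 : ℕ) : ℝ) ^ d * D.ty (t + 1)) ^ (P.K (t + 1) + 1))

/-- [GDP] probability of failure -/
def T_GDP : Prop := ∀ (d q : ℕ) (P : Par q) (D : PrData), P.OK d → PrOK d P D → ∀ t : ℕ,
  (∀ y : Cell d, lawN d P.lam P.mu {n | P.Bad n (P.st n (D.j0 (t + 1) - 1)) y} ≤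
    ENNReal.ofReal (D.b (D.j0 (t + 1) - 1))) → ∀ z : Cell d,
  lawN d P.lam P.mu {n | ¬ P.Gd (t + 1) n (P.st n t) z} ≤ ENNReal.ofReal (D.e d P t)

/-- [BDP] probability of a remaining bad cell -/
def T_BDP : Prop := ∀ (d q : ℕ) (P : Par q) (D : PrData), P.OK d → PrOK d P D → ∀ (t : ℕ)
  (x : Cell d), lawN d P.lam P.mu {n | P.Bad n (P.st n t) x} ≤ ENNReal.ofReal (D.b t)

/-- the series bounding the probability of a change after stage `T` near the origin -/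
def PrData.tl {q : ℕ} (D : PrData) (d : ℕ) (P : Par q) (T : ℕ) : ℝ :=
  ∑' s : ℕ, ((6 * P.L (T + s + 1) + 1 : ℕ) : ℝ) ^ d * D.b (T + s)

/-- [FSP] the final state is good almost surely -/
def T_FSP : Prop := ∀ (d q : ℕ) (P : Par q) (D : PrData), P.OK d → PrOK d P D →
  (Summable fun s : ℕ => ((6 * P.L (s + 1) + 1 : ℕ) : ℝ) ^ d * D.b s) →
  ∀ᵐ n ∂(lawN d P.lam P.mu), P.FOK n ∧ ∀ x, ∃ T, ∀ t ≥ T, P.stx n t x = P.fin n x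

/-- [TLP] probability that levels larger than `T` occur near the origin -/
def T_TLP : Prop := ∀ (d q : ℕ) (P : Par q) (D : PrData), P.OK d → PrOK d P D →
  (Summable fun s : ℕ => ((6 * P.L (s + 1) + 1 : ℕ) : ℝ) ^ d * D.b s) →
  ∀ T ρ : ℕ, (∀ s, T ≤ s → ρ ≤ P.L (s + 1)) →
  lawN d P.lam P.mu {n | ∃ x : Cell d, sd x 0 ≤ ρ ∧ T < (P.fin n x).lv} ≤
    ENNReal.ofReal (D.tl d P T)

end Pool.Agent.H89.PM
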