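import Pool.Agent.H89.PM.Targets4

/-!
# MP_5da387_pr: targets, part 5 (flow, exports, pools, the family map Phi)
-/

set_option autoImplicit false

open Finset MeasureTheory ProbabilityTheory
open scoped ENNReal NNReal

noncomputable section

namespace Pool.Agent.H89.PM

variable {d q : ℕ}

/-- [EXP] existence of exports -/
def T_EXP : Prop := ∀ (d q : ℕ) (V : Finset (Fin q → ℕ)) (E1 k g : ℕ) (ρ : Reps V E1),
  1 ≤ d → 1 ≤ g → ∀ (n : Pl d q → ℕ) (f : Cell d → Gr V) (s : FS d),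
  AtomOK V E1 k g n s.ce s.at' → ExpOK ρ g (datOf s n f) (expo ρ g (datOf s n f))

/-- [POO] existence of families for a pool. The imports are arbitrary families of the right
colour vectors entering through the entry edges. -/
def T_POO : Prop := ∀ (d q : ℕ) (V : Finset (Fin q → ℕ)) (E1 k g : ℕ) (ρ : Reps V E1),
  1 ≤ d → 1 ≤ g → 1 ≤ k → ∀ (n : Pl d q → ℕ) (f : Cell d → Gr V) (s : FS d),
  AtomOK V E1 k g n s.ce s.at' → (∀ x, f x - f (x - e1) = cl V fun i => n (x, i)) →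
  ∀ im : Cell d → Fam d q,
  (∀ y ∈ s.at', y - e1 ∉ s.at' → col (im (y - s.ce)) = ρ.rep (f (y - e1)) ∧
    ∀ p ∈ (im (y - s.ce)).support, p.1 + s.ce ∉ s.at') →
  (∀ y ∈ s.at', y - e1 ∈ s.at' → im (y - s.ce) = 0) →
  ∃ L : List (Fam d q), FamOK ρ k g ⟨datOf s n f, im⟩ L

namespace Par

variable (P : Par q)

/-- good full configurations -/
structure COK (c : P.Cfg d) : Prop where
  fok : P.FOK c.1
  div : ∀ x, c.2 x - c.2 (x - e1) = cl P.V fun i => c.1 (x, i)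

end Par

/-- [EQF] equivariance of the final state and of the local data -/
def T_EQF : Prop := ∀ (d q : ℕ) (P : Par q) (ρ : Reps P.V P.E1), P.OK d → ∀ (c : P.Cfg d)
  (a x : Cell d), (∀ y, ∃ T, ∀ t ≥ T, P.stx c.1 t y = P.fin c.1 y) →
  P.fin (shf a c.1) x = ⟨(P.fin c.1 (x + a)).at'.image (fun y => y - a), (P.fin c.1 (x + a)).lv,
    (P.fin c.1 (x + a)).ce - a⟩ ∧
  P.dat (P.shC a c) x = P.dat c (x + a) ∧ P.dat2 ρ (P.shC a c) x = P.dat2 ρ c (x + a)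

/-- [FMO] the chosen families of every atom are good -/
def T_FMO : Prop := ∀ (d q : ℕ) (P : Par q) (ρ : Reps P.V P.E1), P.OK d → ∀ c : P.Cfg d,
  P.COK c → ∀ x : Cell d,
  ExpOK ρ (P.g (P.fin c.1 x).lv) (P.dat c x) (expo ρ (P.g (P.fin c.1 x).lv) (P.dat c x)) ∧
  FamOK ρ (P.k (P.fin c.1 x).lv) (P.g (P.fin c.1 x).lv) (P.dat2 ρ c x)
    (fams ρ (P.k (P.fin c.1 x).lv) (P.g (P.fin c.1 x).lv) (P.dat2 ρ c x))

/-- [SUM] the families of all atoms together use every point exactly once -/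
def T_SUM : Prop := ∀ (d q : ℕ) (P : Par q) (ρ : Reps P.V P.E1), P.OK d → ∀ c : P.Cfg d,
  P.COK c → (∀ y, ∃ T, ∀ t ≥ T, P.stx c.1 t y = P.fin c.1 y) → ∀ p : Pl d q,
  ∃ F : Finset (Cell d), (∀ a ∉ F, (P.Phi ρ (P.shC a c)).sum (p.1 - a, p.2) = 0) ∧
    ∑ a ∈ F, (P.Phi ρ (P.shC a c)).sum (p.1 - a, p.2) = c.1 p

/-- [DIA] families are short where all levels are small -/
def T_DIA : Prop := ∀ (d q : ℕ) (P : Par q) (ρ : Reps P.V P.E1), P.OK d → ∀ c : P.Cfg d,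
  P.COK c → (∀ y, ∃ T, ∀ t ≥ T, P.stx c.1 t y = P.fin c.1 y) → ∀ T : ℕ,
  (∀ t, t ≤ T → (2 * P.N t + 1) * P.g t ≤ (2 * P.N T + 1) * P.g T) →
  ∀ (x a : Cell d),
  (∀ y, sd y x ≤ 2 * ((2 * P.N T + 1) * P.g T) + 3 → (P.fin c.1 y).lv ≤ T) →
  ∀ W ∈ P.Phi ρ (P.shC a c), (∃ i, W (x - a, i) ≠ 0) →
  ∀ p ∈ W.support, ∀ p' ∈ W.support, dist2 p.1 p'.1 ≤ ((P.k T + 2 * d) * P.g T) ^ 2

/-- sigma-algebra of lists of families: all sets -/
instance : MeasurableSpace (List (Fam d q)) := ⊤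

/-- [MPH] measurability of `Phi` -/
def T_MPH : Prop := ∀ (d q : ℕ) (P : Par q) (ρ : Reps P.V P.E1), P.OK d → Finite (Gr P.V) →
  Measurable fun c : P.Cfg d => P.Phi ρ c

/-- [FLW] the line flow -/
def T_FLW : Prop := ∀ (d q : ℕ), 1 ≤ d → ∀ (V : Finset (Fin q → ℕ)), Finite (Gr V) →
  ∀ (lam : Fin q → ℝ) (mu : ℝ),
  ∃ Q : Measure ((Pl d q → ℕ) × (Cell d → Gr V)), IsProbabilityMeasure Q ∧
    Q.map Prod.fst = lawN d lam mu ∧
    (∀ a : Cell d, MeasurePreserving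
      (fun c : (Pl d q → ℕ) × (Cell d → Gr V) => (shf a c.1, fun x => c.2 (x + a))) Q Q) ∧
    ∀ᵐ c ∂Q, ∀ x, c.2 x - c.2 (x - e1) = cl V fun i => c.1 (x, i)

end Pool.Agent.H89.PM
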