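import Pool.Agent.H89.PM.Targets5

/-!
# MP_5da387_pr: targets, part 6 (from cells to the space)
-/

set_option autoImplicit false

open Finset MeasureTheory ProbabilityTheory
open scoped ENNReal NNReal

noncomputable section

namespace Pool.Agent.H89.PM

variable {d q : ℕ}

/-- a translation invariant random decomposition at the level of cells -/
structure CellScheme (d q : ℕ) (lam : Fin q → ℝ) (V : Finset (Fin q → ℕ)) (mu : ℝ) where
  X : Type
  mX : MeasurableSpace X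
  Q : Measure X
  prob : IsProbabilityMeasure Q
  /-- the action of `ℤ^d`: `T a x` is `x` seen from `a` -/
  T : Cell d → X → X
  T_zero : ∀ x, T 0 x = x
  T_add : ∀ a b x, T (a + b) x = T a (T b x)
  T_mp : ∀ a, MeasurePreserving (T a) Q Q
  n : X → Pl d q → ℕ
  n_T : ∀ a x, n (T a x) = shf a (n x)
  n_meas : Measurable n
  n_law : Q.map n = lawN d lam mu
  /-- families attached to the cell 0 -/
  Phi : X → List (Fam d q)
  Phi_meas : Measurable Phi
  sum : ∀ᵐ x ∂Q, ∀ p : Pl d q,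
    ∃ F : Finset (Cell d), (∀ a ∉ F, (Phi (T a x)).sum (p.1 - a, p.2) = 0) ∧
      ∑ a ∈ F, (Phi (T a x)).sum (p.1 - a, p.2) = n x p
  types : ∀ᵐ x ∂Q, ∀ W ∈ Phi x, col W ∈ V ∧ W ≠ 0

namespace CellScheme

variable {lam : Fin q → ℝ} {V : Finset (Fin q → ℕ)} {mu : ℝ} (C : CellScheme d q lam V mu)

/-- a family which may be longer than `θ` -/
def Far (θ : ℝ) (W : Fam d q) : Prop :=
  ∃ p ∈ W.support, ∃ p' ∈ W.support, θ ^ 2 < (dist2 p.1 p'.1 : ℝ)

open Classical in
/-- expected number of points of the cell 0 in families which may be longer than `θ` -/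
def far (θ : ℝ) : ℝ≥0∞ :=
  ∫⁻ x, ∑' a : Cell d, ((((C.Phi (C.T a x)).filter fun W => decide (Far θ W)).map
    fun W => ((∑ i, W (-a, i) : ℕ) : ℝ≥0∞)).sum : ℝ≥0∞) ∂C.Q

/-- slots: cell `a`, number `j` of the family in the list of `a`, place relative to `a`, number -/
abbrev Slot (d q : ℕ) := Cell d × ℕ × Pl d q × ℕ

/-- the uniform law on the unit cube -/
def unif (d : ℕ) : Measure (Fin d → ℝ) := (volume : Measure (Fin d → ℝ)).restrict
  (Set.pi Set.univ fun _ => Set.Ico 0 1)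

/-- the probability space of the construction: `X`, positions of the slots, shift -/
abbrev Big (C : CellScheme d q lam V mu) := C.X × (Slot d q → Fin d → ℝ) × (Fin d → ℝ)

instance : MeasurableSpace C.X := C.mX

def law : Measure C.Big :=
  C.Q.prod ((Measure.infinitePi fun _ : Slot d q => unif d).prod (unif d))

/-- position of a slot -/
def pos (h : ℝ) (ω : C.Big) (s : Slot d q) : Sp d :=
  WithLp.toLp 2 fun l => h * ((s.2.2.1.1 l + s.1 l : ℤ) + ω.2.1 s l + ω.2.2 l)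

/-- the family number `j` of the cell `a` (zero if there is none) -/
def fam (ω : C.Big) (a : Cell d) (j : ℕ) : Fam d q := (C.Phi (C.T a ω.1)).getD j 0

open Classical in
/-- the points of the family number `j` of the cell `a` -/
def pts (h : ℝ) (ω : C.Big) (a : Cell d) (j : ℕ) : Finset (Sp d) :=
  (C.fam ω a j).support.biUnion fun p =>
    (Finset.range (C.fam ω a j p)).image fun s => C.pos h ω (a, j, p, s)

/-- a slot is active if it carries a point -/
def Act (ω : C.Big) (s : Slot d q) : Prop := s.2.2.2 < C.fam ω s.1 s.2.1 s.2.2.1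

/-- the good event: positions are pairwise different and in the unit cube, the sum rule and the
type rule hold -/
def Good (ω : C.Big) : Prop :=
  (∀ s s' : Slot d q, ω.2.1 s = ω.2.1 s' → s = s') ∧ (∀ s l, 0 ≤ ω.2.1 s l ∧ ω.2.1 s l < 1) ∧
  (∀ l, 0 ≤ ω.2.2 l ∧ ω.2.2 l < 1) ∧
  (∀ p : Pl d q, ∃ F : Finset (Cell d),
    (∀ a ∉ F, (C.Phi (C.T a ω.1)).sum (p.1 - a, p.2) = 0) ∧
      ∑ a ∈ F, (C.Phi (C.T a ω.1)).sum (p.1 - a, p.2) = C.n ω.1 p) ∧
  ∀ a, ∀ W ∈ C.Phi (C.T a ω.1), col W ∈ V ∧ W ≠ 0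

/-- the matching -/
def mat (h : ℝ) (ω : C.Big) : Set (Finset (Sp d)) :=
  {F | C.Good ω ∧ ∃ a j, C.fam ω a j ≠ 0 ∧ F = C.pts h ω a j}

/-- the points of colour `i` -/
def col' (h : ℝ) (i : Fin q) (ω : C.Big) : Set (Sp d) :=
  {x | C.Good ω ∧ ∃ s : Slot d q, C.Act ω s ∧ s.2.2.1.2 = i ∧ x = C.pos h ω s}

end CellScheme

/-- [GOO] the good event is measurable and almost sure -/
def T_GOO : Prop := ∀ (d q : ℕ) (lam : Fin q → ℝ) (V : Finset (Fin q → ℕ)) (mu : ℝ), 1 ≤ d →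
  ∀ C : CellScheme d q lam V mu, MeasurableSet {ω | C.Good ω} ∧ ∀ᵐ ω ∂C.law, C.Good ω

/-- [MTC] on the good event `mat` is a matching of the points -/
def T_MTC : Prop := ∀ (d q : ℕ) (lam : Fin q → ℝ) (V : Finset (Fin q → ℕ)) (mu : ℝ), 1 ≤ d →
  ∀ (C : CellScheme d q lam V mu) (h : ℝ), 0 < h → ∀ ω, C.Good ω →
  Function.Injective (C.pos h ω) ∧
  ∅ ∉ C.mat h ω ∧ (C.mat h ω).PairwiseDisjoint (fun F => (F : Set (Sp d))) ∧
  (⋃ F ∈ C.mat h ω, (F : Set (Sp d))) = ⋃ i, C.col' h i ω ∧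
  ∀ F ∈ C.mat h ω, (fun i => ((F : Set (Sp d)) ∩ C.col' h i ω).ncard) ∈ V

/-- [MEA] measurability of the counts -/
def T_MEA : Prop := ∀ (d q : ℕ) (lam : Fin q → ℝ) (V : Finset (Fin q → ℕ)) (mu : ℝ), 1 ≤ d →
  ∀ (C : CellScheme d q lam V mu) (h : ℝ), 0 < h →
  (∀ i (B : Set (Sp d)), MeasurableSet B → Measurable fun ω => (C.col' h i ω ∩ B).encard) ∧
  ∀ A : Set (Finset (Sp d)), MeasurableSet[finMS d] A →
    Measurable fun ω => (C.mat h ω ∩ A).encard

/-- the standard Poisson construction: contents `n` and positions of the points of each place -/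
def stdPt {d q : ℕ} (h : ℝ) (ζ : Fin d → ℝ) (U : Pl d q × ℕ → Fin d → ℝ) (p : Pl d q) (s : ℕ) :
    Sp d := WithLp.toLp 2 fun l => h * ((p.1 l : ℤ) + U (p, s) l + ζ l)

open Classical in
/-- number of points of colour `i` in `B` in the standard construction (finite for bounded `B`) -/
def stdCt {d q : ℕ} (h : ℝ) (ζ : Fin d → ℝ) (i : Fin q) (B : Set (Sp d))
    (w : (Pl d q → ℕ) × (Pl d q × ℕ → Fin d → ℝ)) : ℕ∞ :=
  ∑' v : Cell d, (((Finset.range (w.1 (v, i))).filter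
    fun s => stdPt h ζ w.2 (v, i) s ∈ B).card : ℕ∞)

open Classical in
/-- number of the first `w.1` points which are in `A` -/
def hits {Y : Type} (A : Set Y) (w : ℕ × (ℕ → Y)) : ℕ :=
  ((Finset.range w.1).filter fun s => w.2 s ∈ A).card

/-- [SPL] splitting of a Poisson variable -/
def T_SPL : Prop := ∀ (Y : Type) [MeasurableSpace Y] (ν : Measure Y) [IsProbabilityMeasure ν]
  (l : ℝ≥0) (m : ℕ) (A : Fin m → Set Y), (∀ j, MeasurableSet (A j)) →
  (∀ j j', j ≠ j' → Disjoint (A j) (A j')) → ∀ κ : Fin m → ℕ,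
  ((poissonMeasure l).prod (Measure.infinitePi fun _ : ℕ => ν))
    {w | ∀ j, hits (A j) w = κ j} = ∏ j, poissonMeasure (l * (ν (A j)).toNNReal) {κ j}

/-- [PPP] the standard construction is a Poisson process -/
def T_PPP : Prop := ∀ (d q : ℕ) (lam : Fin q → ℝ), (∀ i, 0 < lam i) → ∀ h : ℝ, 0 < h →
  ∀ ζ : Fin d → ℝ,
  (∀ (i : Fin q) (B : Set (Sp d)), MeasurableSet B → Bornology.IsBounded B →
    Measurable (stdCt (q := q) h ζ i B) ∧
    ((lawN d lam (h ^ d)).prod (Measure.infinitePi fun _ : Pl d q × ℕ => CellScheme.unif d)).map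
        (stdCt h ζ i B) =
      (poissonMeasure ((lam i).toNNReal * (volume B).toNNReal)).map (fun n : ℕ => (n : ℕ∞))) ∧
  ∀ (m : ℕ) (c : Fin m → Fin q) (B : Fin m → Set (Sp d)),
    (∀ j, MeasurableSet (B j)) → (∀ j, Bornology.IsBounded (B j)) →
    (∀ j j', j ≠ j' → c j ≠ c j' ∨ Disjoint (B j) (B j')) →
    iIndepFun (fun j w => stdCt h ζ (c j) (B j) w)
      ((lawN d lam (h ^ d)).prod (Measure.infinitePi fun _ : Pl d q × ℕ => CellScheme.unif d))

/-- [RIX] reindexing: given `x` and the shift, the counts of the cell scheme are those of the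
standard construction -/
def T_RIX : Prop := ∀ (d q : ℕ) (lam : Fin q → ℝ) (V : Finset (Fin q → ℕ)), 1 ≤ d →
  ∀ (h : ℝ), 0 < h → ∀ (C : CellScheme d q lam V (h ^ d)) (m : ℕ) (c : Fin m → Fin q)
  (B : Fin m → Set (Sp d)), (∀ j, MeasurableSet (B j)) →
  C.law.map (fun ω (j : Fin m) => (C.col' h (c j) ω ∩ B j).encard) =
  (((lawN d lam (h ^ d)).prod (Measure.infinitePi fun _ : Pl d q × ℕ => CellScheme.unif d)).prod
    (CellScheme.unif d)).map (fun w (j : Fin m) => stdCt h w.2 (c j) (B j) w.1)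

/-- [IVT] translation invariance of the construction: for every vector `v` there is a measure
preserving map under which `mat` and the points move by `v` -/
def T_IVT : Prop := ∀ (d q : ℕ) (lam : Fin q → ℝ) (V : Finset (Fin q → ℕ)) (mu : ℝ), 1 ≤ d →
  ∀ (C : CellScheme d q lam V mu) (h : ℝ), 0 < h → ∀ v : Sp d,
  ∃ Ψ : C.Big → C.Big, MeasurePreserving Ψ C.law C.law ∧
    (∀ᵐ ω ∂C.law, C.mat h (Ψ ω) = (transl v) '' C.mat h ω) ∧
    ∀ᵐ ω ∂C.law, ∀ i, C.col' h i (Ψ ω) = (fun x => x + v) '' C.col' h i ω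

/-- [BLD] the scheme in space -/
def T_BLD : Prop := ∀ (d q : ℕ) (lam : Fin q → ℝ), (∀ i, 0 < lam i) → 1 ≤ q →
  ∀ (V : Finset (Fin q → ℕ)), 1 ≤ d → ∀ (h : ℝ), 1 ≤ h →
  ∀ C : CellScheme d q lam V (h ^ d), ∃ S : Scheme d q lam V, ∀ r : ℝ, 0 ≤ r →
    S.tail r ≤ 2 ^ d * C.far (r / h) / ENNReal.ofReal (∑ i, lam i)

end Pool.Agent.H89.PM
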