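import Pool.Agent.H89.PM.Targets6

/-!
# MP_5da387_pr: targets, part 7 (parameters, upper bound)
-/

set_option autoImplicit false

open Finset MeasureTheory ProbabilityTheory
open scoped ENNReal NNReal

noncomputable section

namespace Pool.Agent.H89.PM

/-- [NBD] expected number of points of the cell 0 on an unlikely event -/
def T_NBD : Prop := ∀ (d q : ℕ) (lam : Fin q → ℝ), (∀ i, 0 < lam i) → ∀ mu : ℝ, 0 < mu →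
  ∃ C : ℝ, 0 < C ∧ ∀ (B : Set (Pl d q → ℕ)) (δ : ℝ), MeasurableSet B → 0 < δ → δ ≤ 1 →
    lawN d lam mu B ≤ ENNReal.ofReal δ →
    ∫⁻ n in B, ((∑ i, n (0, i) : ℕ) : ℝ≥0∞) ∂(lawN d lam mu) ≤
      ENNReal.ofReal (δ * (C - Real.log δ))

/-- [UPC] the cell scheme of good parameters, and its tail -/
def T_UPC : Prop := ∀ (d q : ℕ) (P : Par q) (D : PrData) (kap : ℝ), P.OK d → PrOK d P D →
  CV P.V P.lam kap → (ρ : Reps P.V P.E1) → (∀ i, 0 < P.lam i) →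
  (Summable fun s : ℕ => ((6 * P.L (s + 1) + 1 : ℕ) : ℝ) ^ d * D.b s) →
  (∀ T t, t ≤ T → (2 * P.N t + 1) * P.g t ≤ (2 * P.N T + 1) * P.g T) →
  (∀ T s, T ≤ s → 2 * ((2 * P.N T + 1) * P.g T) + 3 ≤ P.L (s + 1)) →
  ∃ C : CellScheme d q P.lam P.V P.mu, ∃ c0 : ℝ, 0 < c0 ∧ ∀ (T : ℕ) (δ : ℝ), 0 < δ → δ ≤ 1 →
    D.tl d P T ≤ δ → ∀ θ : ℝ, ((P.k T : ℝ) + 2 * d) * P.g T ≤ θ →
    C.far θ ≤ ENNReal.ofReal (δ * (c0 - Real.log δ))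

/-- [PAR] existence of good parameters -/
def T_PAR : Prop := ∀ (d q : ℕ), 1 ≤ d → 1 ≤ q → ∀ (V : Finset (Fin q → ℕ)) (lam : Fin q → ℝ)
  (kap : ℝ), CV V lam kap → ∀ (E1 : ℕ) (a : ℝ), 0 < a →
  (∀ k, 4 * d + 4 ≤ k → ∀ r, RateGe (lamB (d := d) lam r) (AstarI V k r)
    (a * ((k : ℝ) - 2 * d) ^ d)) →
  ∃ (P : Par q) (D : PrData) (h : ℝ), P.V = V ∧ P.lam = lam ∧ P.E1 = E1 ∧ P.OK d ∧
    PrOK d P D ∧ 1 ≤ h ∧ P.mu = h ^ d ∧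
    (Summable fun s : ℕ => ((6 * P.L (s + 1) + 1 : ℕ) : ℝ) ^ d * D.b s) ∧
    (∀ T t, t ≤ T → (2 * P.N t + 1) * P.g t ≤ (2 * P.N T + 1) * P.g T) ∧
    (∀ T s, T ≤ s → 2 * ((2 * P.N T + 1) * P.g T) + 3 ≤ P.L (s + 1)) ∧
    (∀ C : ℕ, ∃ T0, ∀ T ≥ T0, C ≤ (P.k T + 2 * d) * P.g T) ∧
    ∀ ε > 0, ∃ T0, ∀ T ≥ T0, D.tl d P T ≤
      Real.exp (-(a - ε) * (((P.k (T + 1) : ℝ) + 2 * d) * P.g (T + 1) * h) ^ d)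

/-- [UPP] the upper bound -/
def T_UPP : Prop := ∀ (d q : ℕ), 1 ≤ d → 1 ≤ q → ∀ (V : Finset (Fin q → ℕ)) (lam : Fin q → ℝ)
  (kap : ℝ), CV V lam kap → ∀ a : ℝ, 0 < a →
  (∀ k, 4 * d + 4 ≤ k → ∀ r, RateGe (lamB (d := d) lam r) (AstarI V k r)
    (a * ((k : ℝ) - 2 * d) ^ d)) →
  ∃ S : Scheme d q lam V, ∀ ε : ℝ, 0 < ε → ∃ r0 : ℝ, ∀ r : ℝ, r0 ≤ r →
    S.tail r ≤ ENNReal.ofReal (Real.exp (-(a - ε) * r ^ d))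

/-- [SLO] slow functions -/
def T_SLO : Prop := ∀ (Q : ℕ → ℕ → Prop) (p0 : ℕ), (∀ t, Q p0 t) →
  (∀ p, ∃ T, ∀ t ≥ T, Q p t) →
  ∃ p : ℕ → ℕ, (∀ t, p0 ≤ p t) ∧ (∀ t, p t ≤ p (t + 1)) ∧ (∀ t, p (t + 1) ≤ p t + 1) ∧
    (∀ C, ∃ T, ∀ t ≥ T, C ≤ p t) ∧ ∀ t, Q (p t) t

/-- data of the parameter level `p` -/
structure LevOK {q : ℕ} (d : ℕ) (V : Finset (Fin q → ℕ)) (lam : Fin q → ℝ) (kap cst a : ℝ)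
    (p : ℕ) (C4 : ℝ) (K J : ℕ) (eps1 mu1 : ℝ) : Prop where
  hC4 : ∀ mu > 0, ∀ g : ℕ, 1 ≤ g → ∀ (z : Cell d) (pl : Pl d q),
    lawN d lam mu {n | C4 * ((g : ℝ) ^ d * mu) < cnt n g z pl} ≤
      ENNReal.ofReal (Real.exp (-(a * ((4 * d + 4 + p : ℕ) - 2 * d : ℝ) ^ d + 1) *
        ((g : ℝ) ^ d * mu)))
  hK : 2 * (a * ((4 * d + 4 + p : ℕ) - 2 * d : ℝ) ^ d + 1) ≤ cst * K
  hJ : 1 ≤ J
  heps : 0 < eps1 ∧ eps1 ≤ 1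
  hmu : 0 < mu1
  hcell : ∀ mu ≥ mu1, CellAbs d V lam kap (4 * d + 4 + p) mu
  hbox : ∀ mu ≥ mu1, ∀ r0, r0 + (J + 1) * (4 * d + 4 + p) ≤ K * ((J + 1) * (4 * d + 4 + p)) →
    BoxAbs (d := d) V lam kap (4 * d + 4 + p) J C4 eps1 r0 mu
  hrob : ∀ mu > 0, ∀ g : ℕ, 1 ≤ g → mu1 ≤ (g : ℝ) ^ d * mu → ∀ z v : Cell d,
    ∀ r ≤ K * ((J + 1) * (4 * d + 4 + p)),
    lawN d lam mu {n | ¬ ∀ u : Pl d q → ℕ,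
      (∀ pl : Pl d q, pl.1 ∈ PM.box d r →
        |(u pl : ℝ) - cnt n g z (v + pl.1, pl.2)| ≤ eps1 * ((g : ℝ) ^ d * mu)) →
      u ∈ (Astar V (4 * d + 4 + p) r : Set (Pl d q → ℕ))} ≤
    ENNReal.ofReal (Real.exp (-((a - 1 / (2 * (p + 1))) *
      ((4 * d + 4 + p : ℕ) - 2 * d : ℝ) ^ d) * ((g : ℝ) ^ d * mu)))

/-- [LEV] level data exist, with `K` and `J` nondecreasing in `p` -/
def T_LEV : Prop := ∀ (d q : ℕ), 1 ≤ d → 1 ≤ q → ∀ (V : Finset (Fin q → ℕ)) (lam : Fin q → ℝ)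
  (kap : ℝ), CV V lam kap → ∀ (cst a : ℝ), 0 < cst → 0 < a →
  (∀ k, 4 * d + 4 ≤ k → ∀ r, RateGe (lamB (d := d) lam r) (AstarI V k r)
    (a * ((k : ℝ) - 2 * d) ^ d)) →
  ∃ (C4 eps1 mu1 : ℕ → ℝ) (K J : ℕ → ℕ), Monotone K ∧ Monotone J ∧
    ∀ p, LevOK d V lam kap cst a p (C4 p) (K p) (J p) (eps1 p) (mu1 p)

end Pool.Agent.H89.PM
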